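import Pool.Agent.Lib_helper61.G5.Frame

/-!
# MP_022ed3_co, triangular hull: definitions for the modules PER, W, S1, FIVE, TYPES
(see `G5_Tri_Blueprint_helper1.md`)

Orders: `al p < al q` is `0 < D s a p q`, `be p < be q` is `0 < D s b p q`,
`ga p < ga q` is `D s c p q < 0`.
-/

set_option autoImplicit false

namespace Pool.Agent.G5.Tri

open Pool.Agent.G5.Lower Pool.Agent.G5.Planar Pool.Agent.G5.Core Pool.Agent.G5.Quad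
  Pool.Agent.G5.Frame

/-- the family `F`: closed fat `m`-subsets -/
structure InF (m : ℕ) (P T : Finset (ℝ × ℝ)) : Prop where
  sub : T ⊆ P
  card : T.card = m
  closed : ∀ x ∈ P, x ∉ T → ExtP (insert x T) x
  fat : 5 ≤ (Set.extremePoints ℝ (convexHull ℝ (T : Set (ℝ × ℝ)))).ncard

/-- the common setting -/
structure Setting (s : ℝ) (m : ℕ) (P : Finset (ℝ × ℝ)) (a b c : ℝ × ℝ) : Prop where
  conf : Conf3 s P a b c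
  thin : Thin m P
  card : P.card = 2 * m + 1
  hm : 5 ≤ m

/-- `P - T = A + B + C` with `a ∈ A`, `b ∈ B`, `c ∈ C` and (C1) -/
structure Cls (s : ℝ) (m : ℕ) (P T A B C : Finset (ℝ × ℝ)) (a b c : ℝ × ℝ) : Prop where
  set : Setting s m P a b c
  subT : T ⊆ P
  cardT : T.card = m
  subA : A ⊆ P
  subB : B ⊆ P
  subC : C ⊆ P
  TA : Disjoint T A
  TB : Disjoint T B
  TC : Disjoint T C
  AB : Disjoint A B
  BC : Disjoint B C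
  CA : Disjoint C A
  cover : ∀ z ∈ P, z ∈ T ∨ z ∈ A ∨ z ∈ B ∨ z ∈ C
  aA : a ∈ A
  bB : b ∈ B
  cC : c ∈ C
  nearA : ∀ z ∈ A, ∀ t ∈ T, 0 < D s b t z ∧ D s c t z < 0
  nearB : ∀ z ∈ B, ∀ t ∈ T, 0 < D s c t z ∧ D s a t z < 0
  nearC : ∀ z ∈ C, ∀ t ∈ T, 0 < D s a t z ∧ D s b t z < 0

lemma Setting.rot {s : ℝ} {m : ℕ} {P : Finset (ℝ × ℝ)} {a b c : ℝ × ℝ}
    (h : Setting s m P a b c) : Setting s m P b c a := ⟨h.conf.rot, h.thin, h.card, h.hm⟩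

lemma Setting.refl {s : ℝ} {m : ℕ} {P : Finset (ℝ × ℝ)} {a b c : ℝ × ℝ}
    (h : Setting s m P a b c) : Setting (-s) m P a c b := ⟨h.conf.refl, h.thin, h.card, h.hm⟩

lemma Cls.rot {s : ℝ} {m : ℕ} {P T A B C : Finset (ℝ × ℝ)} {a b c : ℝ × ℝ}
    (h : Cls s m P T A B C a b c) : Cls s m P T B C A b c a :=
  ⟨h.set.rot, h.subT, h.cardT, h.subB, h.subC, h.subA, h.TB, h.TC, h.TA, h.BC, h.CA, h.AB,
    fun z hz => by rcases h.cover z hz with h | h | h | h <;> simp [h],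
    h.bB, h.cC, h.aA, h.nearB, h.nearC, h.nearA⟩

lemma Cls.refl {s : ℝ} {m : ℕ} {P T A B C : Finset (ℝ × ℝ)} {a b c : ℝ × ℝ}
    (h : Cls s m P T A B C a b c) : Cls (-s) m P T A C B a c b :=
  ⟨h.set.refl, h.subT, h.cardT, h.subA, h.subC, h.subB, h.TA, h.TC, h.TB, h.CA.symm, h.BC.symm,
    h.AB.symm,
    fun z hz => by rcases h.cover z hz with h | h | h | h <;> simp [h],
    h.aA, h.cC, h.bB,
    fun z hz t ht => by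
      have := h.nearA z hz t ht; rw [D_neg, D_neg]; exact ⟨by linarith, by linarith⟩,
    fun z hz t ht => by
      have := h.nearC z hz t ht; rw [D_neg, D_neg]; exact ⟨by linarith, by linarith⟩,
    fun z hz t ht => by
      have := h.nearB z hz t ht; rw [D_neg, D_neg]; exact ⟨by linarith, by linarith⟩⟩

/-- `p q` is a hull edge of `T` (`T` on the left) and all of `X` is strictly right of it -/
structure EdgeR (s : ℝ) (T X : Finset (ℝ × ℝ)) (p q : ℝ × ℝ) : Prop where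
  hp : p ∈ T
  hq : q ∈ T
  hpq : p ≠ q
  left : ∀ t ∈ T, t ≠ p → t ≠ q → 0 < D s p q t
  right : ∀ z ∈ X, D s p q z < 0

/-- data of module S1 (class `A = {a}`) -/
structure S1D (s : ℝ) (T B C : Finset (ℝ × ℝ)) (a b c v L R τ h : ℝ × ℝ) : Prop where
  hv : v ∈ T
  hL : L ∈ T
  hR : R ∈ T
  hτ : τ ∈ T
  hh : h ∈ T
  vmin : ∀ t ∈ T, t ≠ v → 0 < D s a v t
  Rmax : ∀ t ∈ T, t ≠ R → 0 < D s a t R
  LR : L ≠ R
  eLR : ∀ t ∈ T, t ≠ L → t ≠ R → 0 < D s L R t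
  rB : ∀ z ∈ B, D s L R z < 0
  rC : ∀ z ∈ C, D s L R z < 0
  vL : v = L ∨ ((∀ t ∈ T, t ≠ v → t ≠ L → 0 < D s v L t) ∧ 0 < D s b L v)
  τv : τ ≠ v
  τmax : ∀ t ∈ T, t ≠ τ → 0 < D s b t τ
  τtan : ∀ x ∈ B, x ≠ b → ∀ t ∈ T, t ≠ τ → D s x τ t < 0
  hR' : h ≠ R
  hC : ∀ y ∈ C, D s R h y < 0
  hga : D s c R h < 0

/-- data of module FIVE. `E j` is strictly right of the edges `j-1, j, j+1` and strictly left
of the edges `j+2, j+3` (edge `j` is `v_j v_{j+1}`). -/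
structure FiveD (s : ℝ) (T E1 E2 E3 E4 E5 : Finset (ℝ × ℝ)) (a b c v1 v2 v3 v4 v5 : ℝ × ℝ) :
    Prop where
  h1 : v1 ∈ T
  h2 : v2 ∈ T
  h3 : v3 ∈ T
  h4 : v4 ∈ T
  h5 : v5 ∈ T
  nd : [v1, v2, v3, v4, v5].Nodup
  e1 : ∀ t ∈ T, t ≠ v1 → t ≠ v2 → 0 < D s v1 v2 t
  e2 : ∀ t ∈ T, t ≠ v2 → t ≠ v3 → 0 < D s v2 v3 t
  e3 : ∀ t ∈ T, t ≠ v3 → t ≠ v4 → 0 < D s v3 v4 t
  e4 : ∀ t ∈ T, t ≠ v4 → t ≠ v5 → 0 < D s v4 v5 t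
  e5 : ∀ t ∈ T, t ≠ v5 → t ≠ v1 → 0 < D s v5 v1 t
  E1s : ∀ z ∈ E1, D s v5 v1 z < 0 ∧ D s v1 v2 z < 0 ∧ D s v2 v3 z < 0 ∧
    0 < D s v3 v4 z ∧ 0 < D s v4 v5 z
  E2s : ∀ z ∈ E2, D s v1 v2 z < 0 ∧ D s v2 v3 z < 0 ∧ D s v3 v4 z < 0 ∧
    0 < D s v4 v5 z ∧ 0 < D s v5 v1 z
  E3s : ∀ z ∈ E3, D s v2 v3 z < 0 ∧ D s v3 v4 z < 0 ∧ D s v4 v5 z < 0 ∧
    0 < D s v5 v1 z ∧ 0 < D s v1 v2 z
  E4s : ∀ z ∈ E4, D s v3 v4 z < 0 ∧ D s v4 v5 z < 0 ∧ D s v5 v1 z < 0 ∧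
    0 < D s v1 v2 z ∧ 0 < D s v2 v3 z
  E5s : ∀ z ∈ E5, D s v4 v5 z < 0 ∧ D s v5 v1 z < 0 ∧ D s v1 v2 z < 0 ∧
    0 < D s v2 v3 z ∧ 0 < D s v3 v4 z
  aE : a ∈ E4
  bE : b ∈ E1
  cE : c ∈ E2
  n3 : E3.Nonempty
  n5 : E5.Nonempty
  d51 : Disjoint E5 E1
  d23 : Disjoint E2 E3
  /-- `be(x) > be(T)` -/
  x5 : ∀ x ∈ E5, ∀ t ∈ T, 0 < D s b t x
  /-- `ga(y) > ga(T)` -/
  y3 : ∀ y ∈ E3, ∀ t ∈ T, D s c t y < 0

end Pool.Agent.G5.Tri
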