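import Pool.Agent.Lib_helper1.G5T.Defs

/-!
# MP_022ed3_co, triangular hull: tools
-/

set_option autoImplicit false
set_option linter.unusedSectionVars false
set_option linter.unusedVariables false

namespace Pool.Agent.G5.Tri

open Pool.Agent.G5.Lower Pool.Agent.G5.Planar Pool.Agent.G5.Core Pool.Agent.G5.Quad
  Pool.Agent.G5.Frame

/-- minimum for a relation which is total and transitive on a finite set -/
lemma exists_min_rel {α : Type*} [DecidableEq α] (r : α → α → Prop) (S : Finset α)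
    (htot : ∀ x ∈ S, ∀ y ∈ S, x ≠ y → r x y ∨ r y x)
    (htr : ∀ x ∈ S, ∀ y ∈ S, ∀ z ∈ S, r x y → r y z → r x z) (hne : S.Nonempty) :
    ∃ e ∈ S, ∀ z ∈ S, z ≠ e → r e z := by
  classical
  induction S using Finset.induction_on with
  | empty => exact absurd hne (by simp)
  | insert x S hx ih =>
    by_cases hS : S.Nonempty
    · obtain ⟨e, he, hmin⟩ := ih
        (fun x hx y hy => htot x (Finset.mem_insert_of_mem hx) y (Finset.mem_insert_of_mem hy))
        (fun x hx y hy z hz => htr x (Finset.mem_insert_of_mem hx) y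
          (Finset.mem_insert_of_mem hy) z (Finset.mem_insert_of_mem hz)) hS
      have hxe : x ≠ e := fun h => hx (h ▸ he)
      rcases htot x (Finset.mem_insert_self x S) e (Finset.mem_insert_of_mem he) hxe with h1 | h1
      · refine ⟨x, Finset.mem_insert_self x S, ?_⟩
        intro z hz hzx
        rcases Finset.mem_insert.1 hz with h | h
        · exact absurd h hzx
        · by_cases hze : z = e
          · rw [hze]; exact h1
          · exact htr x (Finset.mem_insert_self x S) e (Finset.mem_insert_of_mem he) z hz h1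
              (hmin z h hze)
      · refine ⟨e, Finset.mem_insert_of_mem he, ?_⟩
        intro z hz hze
        rcases Finset.mem_insert.1 hz with h | h
        · rw [h]; exact h1
        · exact hmin z h hze
    · rw [Finset.not_nonempty_iff_eq_empty] at hS
      subst hS
      refine ⟨x, by simp, ?_⟩
      intro z hz hzx
      simp at hz
      exact absurd hz hzx

section tools

variable {s : ℝ} {m : ℕ} {P S T : Finset (ℝ × ℝ)} {a b c p q r x y z t e u : ℝ × ℝ}

/-- strictly positive or strictly negative -/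
lemma pos_or_neg (hg : Gen P) (hs : s ≠ 0) (hx : x ∈ P) (hy : y ∈ P) (hz : z ∈ P)
    (hxy : x ≠ y) (hxz : x ≠ z) (hyz : y ≠ z) : 0 < D s x y z ∨ D s x y z < 0 := by
  have := hg.D_ne hs hx hy hz hxy hxz hyz
  rcases lt_or_gt_of_ne this with h | h
  · exact Or.inr h
  · exact Or.inl h

end tools

end Pool.Agent.G5.Tri

namespace Pool.Agent.G5.Frame

open Pool.Agent.G5.Lower Pool.Agent.G5.Planar Pool.Agent.G5.Core Pool.Agent.G5.Quad
  Pool.Agent.G5.Tri

section ctools

variable {s : ℝ} {m : ℕ} {P S T : Finset (ℝ × ℝ)} {a b c p q r x y z t e u : ℝ × ℝ}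

variable (h : Conf3 s P a b c)
include h

/-- totality at `a` -/
lemma Conf3.tot (hp : p ∈ P) (hq : q ∈ P) (hpa : p ≠ a) (hqa : q ≠ a) (hpq : p ≠ q) :
    0 < D s a p q ∨ 0 < D s a q p := by
  rcases pos_or_neg h.gen h.hs h.ha hp hq hpa.symm hqa.symm hpq with h1 | h1
  · exact Or.inl h1
  · right; rw [D_swap']; linarith

/-- nothing is `al`-above `c` -/
lemma Conf3.not_gt_c (hq : q ∈ P) : ¬ 0 < D s a c q := by
  intro h1
  by_cases hqc : q = c
  · subst hqc; simp at h1
  by_cases hqa : q = a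
  · subst hqa; simp at h1
  have := h.eca q hq hqc hqa
  rw [D_swap] at this
  linarith

/-- nothing is `al`-below `b` -/
lemma Conf3.not_lt_b (hq : q ∈ P) : ¬ 0 < D s a q b := by
  intro h1
  by_cases hqb : q = b
  · subst hqb; simp at h1
  by_cases hqa : q = a
  · subst hqa; simp at h1
  have := h.eab q hq hqa hqb
  rw [D_swap'] at this
  linarith

/-- transitivity at `a` -/
lemma Conf3.tr (hp : p ∈ P) (hq : q ∈ P) (hr : r ∈ P)
    (h1 : 0 < D s a p q) (h2 : 0 < D s a q r) : 0 < D s a p r := by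
  have hpa : p ≠ a := (D_ne h1.ne').1.symm
  have hqa : q ≠ a := (D_ne h1.ne').2.1.symm
  have hra : r ≠ a := (D_ne h2.ne').2.1.symm
  have hpc : p ≠ c := fun he => h.not_gt_c hq (he ▸ h1)
  have hqc : q ≠ c := fun he => h.not_gt_c hr (he ▸ h2)
  refine trans_pos (a := c) (b := a) (h.eca p hp hpc hpa) (h.eca q hq hqc hqa) ?_ h1 h2
  by_cases hrc : r = c
  · rw [hrc]; simp
  · exact (h.eca r hr hrc hra).le

/-- the `al`-minimum of `S - {a}` -/
lemma Conf3.exists_min (hS : S ⊆ P) (hne : ∃ z ∈ S, z ≠ a) :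
    ∃ e ∈ S, e ≠ a ∧ ∀ z ∈ S, z ≠ a → z ≠ e → 0 < D s a e z := by
  classical
  obtain ⟨z0, hz0, hz0a⟩ := hne
  obtain ⟨e, he, hmin⟩ := exists_min_rel (fun x y => 0 < D s a x y) (S.erase a)
    (fun x hx y hy hxy => by
      rw [Finset.mem_erase] at hx hy
      exact h.tot (hS hx.2) (hS hy.2) hx.1 hy.1 hxy)
    (fun x hx y hy z hz h1 h2 => by
      rw [Finset.mem_erase] at hx hy hz
      exact h.tr (hS hx.2) (hS hy.2) (hS hz.2) h1 h2) ⟨z0, by simp [hz0, hz0a]⟩
  rw [Finset.mem_erase] at he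
  exact ⟨e, he.2, he.1, fun z hz hza hze => hmin z (by simp [hz, hza]) hze⟩

/-- the `al`-maximum of `S - {a}` -/
lemma Conf3.exists_max (hS : S ⊆ P) (hne : ∃ z ∈ S, z ≠ a) :
    ∃ e ∈ S, e ≠ a ∧ ∀ z ∈ S, z ≠ a → z ≠ e → 0 < D s a z e := by
  classical
  obtain ⟨z0, hz0, hz0a⟩ := hne
  obtain ⟨e, he, hmin⟩ := exists_min_rel (fun x y => 0 < D s a y x) (S.erase a)
    (fun x hx y hy hxy => by
      rw [Finset.mem_erase] at hx hy
      exact h.tot (hS hy.2) (hS hx.2) hy.1 hx.1 hxy.symm)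
    (fun x hx y hy z hz h1 h2 => by
      rw [Finset.mem_erase] at hx hy hz
      exact h.tr (hS hz.2) (hS hy.2) (hS hx.2) h2 h1) ⟨z0, by simp [hz0, hz0a]⟩
  rw [Finset.mem_erase] at he
  exact ⟨e, he.2, he.1, fun z hz hza hze => hmin z (by simp [hz, hza]) hze⟩

/-- (E0) -/
lemma Conf3.ext_a (hS : S ⊆ P) (ha : a ∈ S) : ExtP S a := ExtP.mono h.exta ha hS

/-- (E1) the `al`-minimum is extreme -/
lemma Conf3.ext_min (hS : S ⊆ P) (he : e ∈ S) (hea : e ≠ a)
    (hmin : ∀ z ∈ S, z ≠ a → z ≠ e → 0 < D s a e z) : ExtP S e := by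
  classical
  have h1 : ExtP (insert a S) e := by
    refine edge_ext' (s := s) (p := a) (q := e) (Finset.mem_insert_self a S)
      (Finset.mem_insert_of_mem he) hea.symm ?_
    intro z hz hza hze
    rcases Finset.mem_insert.1 hz with h2 | h2
    · exact absurd h2 hza
    · exact hmin z h2 hza hze
  exact ExtP.mono h1 he (Finset.subset_insert a S)

/-- (E1) the `al`-maximum is extreme -/
lemma Conf3.ext_max (hS : S ⊆ P) (he : e ∈ S) (hea : e ≠ a)
    (hmin : ∀ z ∈ S, z ≠ a → z ≠ e → 0 < D s a z e) : ExtP S e := by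
  classical
  have h1 : ExtP (insert a S) e := by
    refine edge_ext' (s := -s) (p := a) (q := e) (Finset.mem_insert_self a S)
      (Finset.mem_insert_of_mem he) hea.symm ?_
    intro z hz hza hze
    rcases Finset.mem_insert.1 hz with h2 | h2
    · exact absurd h2 hza
    · rw [D_neg, D_swap']
      have := hmin z h2 hza hze
      linarith
  exact ExtP.mono h1 he (Finset.subset_insert a S)

/-- (CEVA), positive -/
lemma Conf3.ceva_pos (hp : p ∈ P) (hpa : p ≠ a) (hpb : p ≠ b) (hpc : p ≠ c)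
    (h1 : 0 < D s a p q) (h2 : 0 < D s b p q) (h3 : 0 < D s c p q) : False := by
  have e1 := h.eab p hp hpa hpb
  have e2 := h.ebc p hp hpb hpc
  have e3 := h.eca p hp hpc hpa
  have id1 : D s a b p * D s c p q + D s b c p * D s a p q + D s c a p * D s b p q = 0 := by
    simp only [D, dt]; ring
  have := mul_pos e1 h3
  have := mul_pos e2 h1
  have := mul_pos e3 h2
  linarith

/-- (CEVA), negative -/
lemma Conf3.ceva_neg (hp : p ∈ P) (hpa : p ≠ a) (hpb : p ≠ b) (hpc : p ≠ c)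
    (h1 : D s a p q < 0) (h2 : D s b p q < 0) (h3 : D s c p q < 0) : False := by
  have e1 := h.eab p hp hpa hpb
  have e2 := h.ebc p hp hpb hpc
  have e3 := h.eca p hp hpc hpa
  have id1 : D s a b p * D s c p q + D s b c p * D s a p q + D s c a p * D s b p q = 0 := by
    simp only [D, dt]; ring
  have := mul_neg_of_pos_of_neg e1 h3
  have := mul_neg_of_pos_of_neg e2 h1
  have := mul_neg_of_pos_of_neg e3 h2
  linarith

end ctools

end Pool.Agent.G5.Frame

namespace Pool.Agent.G5.Tri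

open Pool.Agent.G5.Lower Pool.Agent.G5.Planar Pool.Agent.G5.Core Pool.Agent.G5.Quad
  Pool.Agent.G5.Frame

section tools2

variable {s : ℝ} {m : ℕ} {P S T : Finset (ℝ × ℝ)} {a b c p q r x y z t e u : ℝ × ℝ}

/-- (OPP): `x` in the cone at `t` opposite to `c, a` -/
lemma opp (hca : 0 < D s t c a) (hx1 : 0 < D s t x c) (hx2 : D s t x a < 0)
    (h1 : D s t p a < 0) (h2 : D s t p c < 0) : 0 < D s t p x := by
  have id1 : D s t c a * D s t p x = D s t p c * D s t x a + D s t x c * (- D s t p a) := by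
    simp only [D, dt]; ring
  have h3 : 0 < D s t c a * D s t p x := by
    rw [id1]
    have := mul_pos_of_neg_of_neg h2 hx2
    have := mul_pos hx1 (neg_pos.2 h1)
    linarith
  exact (pos_iff_pos_of_mul_pos h3).1 hca

/-- (OPP), other side -/
lemma opp' (hca : 0 < D s t c a) (hx1 : 0 < D s t x c) (hx2 : D s t x a < 0)
    (h1 : 0 < D s t p a) (h2 : 0 < D s t p c) : D s t p x < 0 := by
  have id1 : D s t c a * D s t p x = D s t p c * D s t x a + D s t x c * (- D s t p a) := by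
    simp only [D, dt]; ring
  have h3 : D s t c a * D s t p x < 0 := by
    rw [id1]
    have := mul_neg_of_pos_of_neg h2 hx2
    have := mul_neg_of_pos_of_neg hx1 (neg_neg_of_pos h1)
    linarith
  by_contra hcon
  have := mul_nonneg hca.le (not_lt.1 hcon)
  linarith

/-- around `p`: `x, y, z` on the left of `p b` with `x` before `y` before `z` -/
lemma around (hx : 0 < D s p b x) (hy : 0 < D s p b y) (hz : 0 < D s p b z)
    (h1 : 0 < D s p x y) (h2 : 0 < D s p y z) : 0 < D s p x z := by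
  have id1 : D s p b y * D s p x z = D s p b x * D s p y z + D s p b z * D s p x y := by
    simp only [D, dt]; ring
  have h3 : 0 < D s p b y * D s p x z := by
    rw [id1]
    have := mul_pos hx h2
    have := mul_pos hz h1
    linarith
  exact (pos_iff_pos_of_mul_pos h3).1 hy

/-- at most `m` points if there are five extreme points -/
lemma light_of_five (ht : Thin m P) (hS : S ⊆ P) {e1 e2 e3 e4 e5 : ℝ × ℝ}
    (h1 : ExtP S e1) (h2 : ExtP S e2) (h3 : ExtP S e3) (h4 : ExtP S e4) (h5 : ExtP S e5)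
    (hnd : [e1, e2, e3, e4, e5].Nodup) : S.card ≤ m := by
  by_contra hcon
  exact ht.five hS (by omega) h1 h2 h3 h4 h5 hnd

/-- in a heavy set with four known extreme points there is no other one -/
lemma four_only (ht : Thin m P) (hS : S ⊆ P) (hc : m + 1 ≤ S.card) {e1 e2 e3 e4 : ℝ × ℝ}
    (h1 : ExtP S e1) (h2 : ExtP S e2) (h3 : ExtP S e3) (h4 : ExtP S e4)
    (hnd : [e1, e2, e3, e4].Nodup) (he : ExtP S e) : e = e1 ∨ e = e2 ∨ e = e3 ∨ e = e4 := by
  by_contra hcon
  push Not at hcon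
  refine ht.five hS hc he h1 h2 h3 h4 ?_
  rw [List.nodup_cons]
  refine ⟨?_, hnd⟩
  simp only [List.mem_cons, List.not_mem_nil, or_false, not_or]
  exact ⟨hcon.1, hcon.2.1, hcon.2.2.1, hcon.2.2.2⟩

/-- the maximum of `D s p q` over `S` is attained at an extreme point -/
lemma exists_ext_ge (hx : x ∈ S) : ∃ e, ExtP S e ∧ D s p q x ≤ D s p q e := by
  obtain ⟨e, he, hmin⟩ := exists_ext_min ⟨x, hx⟩ (Dlin (-s) p q)
  refine ⟨e, he, ?_⟩
  have h1 := hmin x hx
  have h2 := Dlin_sub (-s) p q x e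
  rw [D_neg, D_neg] at h2
  linarith

/-- closed left side -/
noncomputable def sL (P : Finset (ℝ × ℝ)) (s : ℝ) (p q : ℝ × ℝ) : Finset (ℝ × ℝ) :=
  by classical exact P.filter (fun z => 0 ≤ D s p q z)

/-- closed right side -/
noncomputable def sR (P : Finset (ℝ × ℝ)) (s : ℝ) (p q : ℝ × ℝ) : Finset (ℝ × ℝ) :=
  by classical exact P.filter (fun z => D s p q z ≤ 0)

lemma mem_sL : z ∈ sL P s p q ↔ z ∈ P ∧ 0 ≤ D s p q z := by
  unfold sL; simp [Finset.mem_filter]
lemma mem_sR : z ∈ sR P s p q ↔ z ∈ P ∧ D s p q z ≤ 0 := by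
  unfold sR; simp [Finset.mem_filter]
lemma sL_sub : sL P s p q ⊆ P := fun _ hz => (mem_sL.1 hz).1
lemma sR_sub : sR P s p q ⊆ P := fun _ hz => (mem_sR.1 hz).1

lemma card_sLR (hg : Gen P) (hs : s ≠ 0) (hp : p ∈ P) (hq : q ∈ P) (hpq : p ≠ q) :
    (sL P s p q).card + (sR P s p q).card = P.card + 2 := by
  classical
  have := card_sides (P := P) hg hs hp hq hpq
  unfold sL sR
  convert this

/-- `p` is extreme in each closed side -/
lemma sL_extp (hg : Gen P) (hs : s ≠ 0) (hp : p ∈ P) (hq : q ∈ P) (hpq : p ≠ q) :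
    ExtP (sL P s p q) p := by
  refine edge_ext (s := s) (q := q) (mem_sL.2 ⟨hp, by simp⟩) (mem_sL.2 ⟨hq, by simp⟩) hpq ?_
  intro z hz hzp hzq
  have h1 := mem_sL.1 hz
  exact lt_of_le_of_ne h1.2 (hg.D_ne hs hp hq h1.1 hpq hzp.symm hzq.symm).symm

lemma sL_extq (hg : Gen P) (hs : s ≠ 0) (hp : p ∈ P) (hq : q ∈ P) (hpq : p ≠ q) :
    ExtP (sL P s p q) q := by
  refine edge_ext' (s := s) (p := p) (mem_sL.2 ⟨hp, by simp⟩) (mem_sL.2 ⟨hq, by simp⟩) hpq ?_
  intro z hz hzp hzq
  have h1 := mem_sL.1 hz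
  exact lt_of_le_of_ne h1.2 (hg.D_ne hs hp hq h1.1 hpq hzp.symm hzq.symm).symm

lemma sR_extp (hg : Gen P) (hs : s ≠ 0) (hp : p ∈ P) (hq : q ∈ P) (hpq : p ≠ q) :
    ExtP (sR P s p q) p := by
  refine edge_ext (s := -s) (q := q) (mem_sR.2 ⟨hp, by simp⟩) (mem_sR.2 ⟨hq, by simp⟩) hpq ?_
  intro z hz hzp hzq
  have h1 := mem_sR.1 hz
  rw [D_neg]
  have := lt_of_le_of_ne h1.2 (hg.D_ne hs hp hq h1.1 hpq hzp.symm hzq.symm)
  linarith

lemma sR_extq (hg : Gen P) (hs : s ≠ 0) (hp : p ∈ P) (hq : q ∈ P) (hpq : p ≠ q) :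
    ExtP (sR P s p q) q := by
  refine edge_ext' (s := -s) (p := p) (mem_sR.2 ⟨hp, by simp⟩) (mem_sR.2 ⟨hq, by simp⟩) hpq ?_
  intro z hz hzp hzq
  have h1 := mem_sR.1 hz
  rw [D_neg]
  have := lt_of_le_of_ne h1.2 (hg.D_ne hs hp hq h1.1 hpq hzp.symm hzq.symm)
  linarith

end tools2

end Pool.Agent.G5.Tri
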