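import Pool.Agent.Lib_helper1.G5T.Five
import Pool.Agent.Lib_helper38.G5T.PER
import Pool.Agent.Lib_helper32.G5T.S1
import Pool.Agent.Lib_helper31.G5T.TypesPair
import Pool.Agent.Lib_helper61.G5T.Types
import Pool.Agent.Lib_helper61.G5T.Assembly

/-!
# MP_022ed3_co, triangular hull: the final assembly
-/

set_option autoImplicit false

namespace Pool.Agent.G5.Tri

open Pool.Agent.G5.Lower Pool.Agent.G5.Planar Pool.Agent.G5.Core Pool.Agent.G5.Quad
  Pool.Agent.G5.Frame

/-- no fat closed `m`-subset avoids all three hull vertices -/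
theorem no_InF0 {s : ℝ} {m : ℕ} {P T : Finset (ℝ × ℝ)} {a b c : ℝ × ℝ}
    (h : Setting s m P a b c) (hT : InF m P T) : a ∈ T ∨ b ∈ T ∨ c ∈ T := by
  by_contra hcon
  push Not at hcon
  obtain ⟨A, B, C, hc⟩ := types_cls h hT hcon.1 hcon.2.1 hcon.2.2
  have five : ∀ {A B C : Finset (ℝ × ℝ)} {a b c : ℝ × ℝ}, Cls s m P T A B C a b c →
      TP.FiveAt s T A B C a b c → False := by
    rintro A B C a b c hc ⟨E1, E2, E3, E5, v1, v2, v3, v4, v5, rfl, rfl, hd⟩
    exact five_star_false hc hd
  have one : ∀ {A B C : Finset (ℝ × ℝ)} {a b c : ℝ × ℝ}, Cls s m P T A B C a b c →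
      A.card ≤ 1 → (A = {a} → (∃ v L R τ h, S1D s T B C a b c v L R τ h) ∨
          (∃ v L R τ h, S1D (-s) T C B a c b v L R τ h)) → False := by
    intro A B C a b c hc h1 h2
    have hA : A = {a} := by
      apply Finset.eq_singleton_iff_unique_mem.2
      exact ⟨hc.aA, fun x hx => Finset.card_le_one.1 h1 x hx a hc.aA⟩
    subst hA
    rcases h2 rfl with ⟨v, L, R, τ, h, hd⟩ | ⟨v, L, R, τ, h, hd⟩
    · exact s1_false hc hd
    · exact s1_false hc.refl hd
  rcases types_pair hc hT with h1 | ⟨ea, ha⟩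
  · exact five hc h1
  rcases types_pair hc.rot hT with h1 | ⟨eb, hb⟩
  · exact five hc.rot h1
  rcases types_pair hc.rot.rot hT with h1 | ⟨ec, hc'⟩
  · exact five hc.rot.rot h1
  by_cases hA : 2 ≤ A.card
  · by_cases hB : 2 ≤ B.card
    · by_cases hC : 2 ≤ C.card
      · exact w_false hc hA hB hC ea eb ec
      · exact one hc.rot.rot (by omega) hc'
    · exact one hc.rot (by omega) hb
  · exact one hc (by omega) ha

/-- the induction step for a triangular hull -/
theorem step_false : StepFalse := fun _ _ _ _ _ _ h ih =>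
  per_false h (exists_InF h.conf.gen h.thin h.card h.hm ih) (fun _ hT => no_InF0 h hT)

end Pool.Agent.G5.Tri
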