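import Pool.Agent.Lib_helper1.G5T.W
import Pool.Agent.Lib_helper32.G5.Coord

/-!
# MP_022ed3_co, triangular hull: module FIVE (the five-star)
-/

set_option autoImplicit false
set_option linter.unusedVariables false

namespace Pool.Agent.G5.Tri

open Pool.Agent.G5.Lower Pool.Agent.G5.Planar Pool.Agent.G5.Core Pool.Agent.G5.Quad
  Pool.Agent.G5.Frame Pool.Agent.G5.Coord

lemma Crd.refl {s : ℝ} {P : Finset (ℝ × ℝ)} {a b c : ℝ × ℝ} {al be ga : ℝ × ℝ → ℝ}
    (h : Crd s P a b c al be ga) : Crd (-s) P a c b (fun z => - al z) ga be := by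
  refine ⟨h.cf.refl, ?_, ?_, ?_⟩
  · intro p hp q hq hpa hqa
    rw [neg_lt_neg_iff, h.al_lt q hq p hp hqa hpa, D_neg, D_swap']
  · intro p hp q hq hpa hqa
    rw [h.ga_lt p hp q hq hpa hqa, D_neg]
    constructor <;> intro h <;> linarith
  · intro p hp q hq hpa hqa
    rw [h.be_lt p hp q hq hpa hqa, D_neg]
    constructor <;> intro h <;> linarith

section five

variable {s : ℝ} {m : ℕ} {P T V E1 E2 E3 E4 E5 : Finset (ℝ × ℝ)}
  {a b c v1 v2 v3 v4 v5 x y z t u w t' xh yh : ℝ × ℝ} {al be ga : ℝ × ℝ → ℝ}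

lemma FiveD.refl (hd : FiveD s T E1 E2 E3 E4 E5 a b c v1 v2 v3 v4 v5) :
    FiveD (-s) T E2 E1 E5 E4 E3 a c b v3 v2 v1 v5 v4 := by
  have hnd := hd.nd
  have sw : ∀ p q z : ℝ × ℝ, D (-s) p q z = D s q p z := fun p q z => by rw [D_neg, D_swap]; ring
  refine ⟨hd.h3, hd.h2, hd.h1, hd.h5, hd.h4, ?_, ?_, ?_, ?_, ?_, ?_, ?_, ?_, ?_, ?_, ?_, hd.aE,
    hd.cE, hd.bE, hd.n5, hd.n3, hd.d23.symm, hd.d51.symm, ?_, ?_⟩
  · simp only [List.nodup_cons, List.mem_cons, List.not_mem_nil, or_false, not_or,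
      not_false_eq_true, List.nodup_nil, and_true] at hnd ⊢
    obtain ⟨⟨h12, h13, h14, h15⟩, ⟨h23, h24, h25⟩, ⟨h34, h35⟩, h45⟩ := hnd
    exact ⟨⟨Ne.symm h23, Ne.symm h13, h35, h34⟩, ⟨Ne.symm h12, h25, h24⟩, ⟨h15, h14⟩,
      Ne.symm h45⟩
  · intro t ht h1 h2; rw [sw]; exact hd.e2 t ht h2 h1
  · intro t ht h1 h2; rw [sw]; exact hd.e1 t ht h2 h1
  · intro t ht h1 h2; rw [sw]; exact hd.e5 t ht h2 h1
  · intro t ht h1 h2; rw [sw]; exact hd.e4 t ht h2 h1
  · intro t ht h1 h2; rw [sw]; exact hd.e3 t ht h2 h1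
  · intro z hz; simp only [sw]; have := hd.E2s z hz; tauto
  · intro z hz; simp only [sw]; have := hd.E1s z hz; tauto
  · intro z hz; simp only [sw]; have := hd.E5s z hz; tauto
  · intro z hz; simp only [sw]; have := hd.E4s z hz; tauto
  · intro z hz; simp only [sw]; have := hd.E3s z hz; tauto
  · intro z hz t ht; rw [D_neg]; have := hd.y3 z hz t ht; linarith
  · intro z hz t ht; rw [D_neg]; have := hd.x5 z hz t ht; linarith

/-- five-star cyclic edge facts for points of `T` -/
lemma FiveD.e1' (hd : FiveD s T E1 E2 E3 E4 E5 a b c v1 v2 v3 v4 v5) (ht : t ∈ T) :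
    0 ≤ D s v1 v2 t := by
  by_cases h1 : t = v1
  · rw [h1]; simp
  by_cases h2 : t = v2
  · rw [h2]; simp
  exact (hd.e1 t ht h1 h2).le

lemma FiveD.e2' (hd : FiveD s T E1 E2 E3 E4 E5 a b c v1 v2 v3 v4 v5) (ht : t ∈ T) :
    0 ≤ D s v2 v3 t := by
  by_cases h1 : t = v2
  · rw [h1]; simp
  by_cases h2 : t = v3
  · rw [h2]; simp
  exact (hd.e2 t ht h1 h2).le

lemma FiveD.e4' (hd : FiveD s T E1 E2 E3 E4 E5 a b c v1 v2 v3 v4 v5) (ht : t ∈ T) :
    0 ≤ D s v4 v5 t := by
  by_cases h1 : t = v4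
  · rw [h1]; simp
  by_cases h2 : t = v5
  · rw [h2]; simp
  exact (hd.e4 t ht h1 h2).le

/-- three consecutive vertices of an outer chain are extreme in `T ∪ E` -/
lemma three_ext {p q r : ℝ × ℝ} {X : Finset (ℝ × ℝ)} (hp : p ∈ X) (hq : q ∈ X) (hr : r ∈ X)
    (hpq : p ≠ q) (hqr : q ≠ r)
    (h1 : ∀ z ∈ X, z ≠ p → z ≠ q → 0 < D s p q z) (h2 : ∀ z ∈ X, z ≠ q → z ≠ r → 0 < D s q r z) :
    ExtP X p ∧ ExtP X q ∧ ExtP X r :=
  ⟨edge_ext hp hq hpq h1, edge_ext hq hr hqr h2, edge_ext' hq hr hqr h2⟩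

/-- (0a) -/
lemma five_0a (hc : Cls s m P T E4 (E5 ∪ E1) (E2 ∪ E3) a b c)
    (hd : FiveD s T E1 E2 E3 E4 E5 a b c v1 v2 v3 v4 v5) (hC : Crd s P a b c al be ga)
    (hz : z ∈ E1) (hzb : z ≠ b) (hx : x ∈ E5) : be z < be x := by
  classical
  have hf := hc.set.conf
  set S := T ∪ E1 with hS
  have hE1P : E1 ⊆ P := fun z hz => hc.subB (Finset.mem_union_right _ hz)
  have hE5P : E5 ⊆ P := fun z hz => hc.subB (Finset.mem_union_left _ hz)
  have hSP : S ⊆ P := Finset.union_subset hc.subT hE1P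
  have hdis : Disjoint T E1 := Finset.disjoint_of_subset_right
    (Finset.subset_union_right) hc.TB
  have hcard : m + 1 ≤ S.card := by
    rw [hS, Finset.card_union_of_disjoint hdis, hc.cardT]
    have : 0 < E1.card := Finset.card_pos.2 ⟨b, hd.bE⟩
    omega
  have hnd := hd.nd
  simp only [List.nodup_cons, List.mem_cons, List.not_mem_nil, or_false, not_or,
      not_false_eq_true, List.nodup_nil, and_true] at hnd
  obtain ⟨⟨h12, h13, h14, h15⟩, ⟨h23, h24, h25⟩, ⟨h34, h35⟩, h45⟩ := hnd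
  have hT : ∀ t ∈ T, t ∈ S := fun t ht => Finset.mem_union_left _ ht
  obtain ⟨x3, x4, x5⟩ := three_ext (s := s) (X := S) (hT v3 hd.h3) (hT v4 hd.h4) (hT v5 hd.h5)
    h34 h45 (by
      intro z hz h1 h2
      rcases Finset.mem_union.1 hz with h | h
      · exact hd.e3 z h h1 h2
      · exact (hd.E1s z h).2.2.2.1) (by
      intro z hz h1 h2
      rcases Finset.mem_union.1 hz with h | h
      · exact hd.e4 z h h1 h2
      · exact (hd.E1s z h).2.2.2.2)
  have hbS : b ∈ S := Finset.mem_union_right _ hd.bE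
  have hxb : ExtP S b := hf.rot.ext_a hSP hbS
  obtain ⟨e, he, heb, hmax, hxe⟩ := hC.be_max hSP (hT v3 hd.h3) (hc.neT hd.h3).2.1
  have heT : e ∈ T := by
    rcases four_only hc.set.thin hSP hcard hxb x3 x4 x5 (by
      simp [(hc.neT hd.h3).2.1.symm, (hc.neT hd.h4).2.1.symm, (hc.neT hd.h5).2.1.symm, h34, h35,
        h45]) hxe with h | h | h | h
    · exact absurd h heb
    · rw [h]; exact hd.h3
    · rw [h]; exact hd.h4
    · rw [h]; exact hd.h5
  have h1 := hmax z (Finset.mem_union_right _ hz) hzb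
  have hxb' : x ≠ b := by
    rintro rfl
    exact Finset.disjoint_left.1 hd.d51 hx hd.bE
  have h2 := (hC.be_lt e (hc.subT heT) x (hE5P hx) heb hxb').2 (hd.x5 x hx e heT)
  linarith

/-- (0c) -/
lemma five_0c (hc : Cls s m P T E4 (E5 ∪ E1) (E2 ∪ E3) a b c)
    (hd : FiveD s T E1 E2 E3 E4 E5 a b c v1 v2 v3 v4 v5) (hC : Crd s P a b c al be ga) :
    ∃ xh ∈ E5, ∀ x ∈ E5, al xh ≤ al x ∧ be x ≤ be xh := by
  classical
  have hf := hc.set.conf
  set S := T ∪ E5 with hS
  have hE5P : E5 ⊆ P := fun z hz => hc.subB (Finset.mem_union_left _ hz)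
  have hSP : S ⊆ P := Finset.union_subset hc.subT hE5P
  have hdis : Disjoint T E5 := Finset.disjoint_of_subset_right
    (Finset.subset_union_left) hc.TB
  have hcard : m + 1 ≤ S.card := by
    rw [hS, Finset.card_union_of_disjoint hdis, hc.cardT]
    have : 0 < E5.card := Finset.card_pos.2 hd.n5
    omega
  have hnd := hd.nd
  simp only [List.nodup_cons, List.mem_cons, List.not_mem_nil, or_false, not_or,
      not_false_eq_true, List.nodup_nil, and_true] at hnd
  obtain ⟨⟨h12, h13, h14, h15⟩, ⟨h23, h24, h25⟩, ⟨h34, h35⟩, h45⟩ := hnd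
  have hT : ∀ t ∈ T, t ∈ S := fun t ht => Finset.mem_union_left _ ht
  obtain ⟨x2, x3, x4⟩ := three_ext (s := s) (X := S) (hT v2 hd.h2) (hT v3 hd.h3) (hT v4 hd.h4)
    h23 h34 (by
      intro z hz h1 h2
      rcases Finset.mem_union.1 hz with h | h
      · exact hd.e2 z h h1 h2
      · exact (hd.E5s z h).2.2.2.1) (by
      intro z hz h1 h2
      rcases Finset.mem_union.1 hz with h | h
      · exact hd.e3 z h h1 h2
      · exact (hd.E5s z h).2.2.2.2)
  obtain ⟨e, he, hea, hmin, hxe⟩ := hC.al_min hSP (hT v3 hd.h3) (hc.neT hd.h3).1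
  obtain ⟨e', he', heb', hmax, hxe'⟩ := hC.be_max hSP (hT v3 hd.h3) (hc.neT hd.h3).2.1
  obtain ⟨x0, hx0⟩ := hd.n5
  have hx0a : x0 ≠ a := by
    rintro rfl
    exact Finset.disjoint_left.1 hc.AB hc.aA (Finset.mem_union_left _ hx0)
  have hx0b : x0 ≠ b := by
    rintro rfl
    exact Finset.disjoint_left.1 hd.d51 hx0 hd.bE
  have heT : e ∉ T := by
    intro h
    have h1 := (hc.nearB x0 (Finset.mem_union_left _ hx0) e h).2
    have h2 := hmin x0 (Finset.mem_union_right _ hx0) hx0a
    have h3 := (hC.al_lt x0 (hE5P hx0) e (hc.subT h) hx0a hea).2 (by rw [D_swap']; linarith)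
    linarith
  have heT' : e' ∉ T := by
    intro h
    have h1 := hd.x5 x0 hx0 e' h
    have h2 := hmax x0 (Finset.mem_union_right _ hx0) hx0b
    have h3 := (hC.be_lt e' (hc.subT h) x0 (hE5P hx0) heb' hx0b).2 h1
    linarith
  have hee : e' = e := by
    by_contra hne
    have k : ∀ v ∈ T, v ≠ e ∧ v ≠ e' := fun v hv =>
      ⟨fun h => heT (h ▸ hv), fun h => heT' (h ▸ hv)⟩
    refine hc.set.thin.five hSP hcard x2 x3 x4 hxe hxe' ?_
    simp [h23, h24, h34, k v2 hd.h2, k v3 hd.h3, k v4 hd.h4, Ne.symm hne]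
  have he5 : e ∈ E5 := by
    rcases Finset.mem_union.1 he with h | h
    · exact absurd h heT
    · exact h
  refine ⟨e, he5, fun x hx => ⟨?_, ?_⟩⟩
  · refine hmin x (Finset.mem_union_right _ hx) ?_
    rintro rfl
    exact Finset.disjoint_left.1 hc.AB hc.aA (Finset.mem_union_left _ hx)
  · rw [← hee]
    refine hmax x (Finset.mem_union_right _ hx) ?_
    rintro rfl
    exact Finset.disjoint_left.1 hd.d51 hx hd.bE

/-- step 1: the set `V1` is small -/
lemma five_V1 (hc : Cls s m P T E4 (E5 ∪ E1) (E2 ∪ E3) a b c)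
    (hd : FiveD s T E1 E2 E3 E4 E5 a b c v1 v2 v3 v4 v5) (hC : Crd s P a b c al be ga)
    [DecidablePred (fun u => (Hi P s c u).card ≤ m)] :
    (T.filter (fun u => (Hi P s c u).card ≤ m)).card + 1 ≤ E3.card + E4.card := by
  classical
  by_contra hcon
  push Not at hcon
  have hf := hc.set.conf
  set W := T.filter (fun u => (Hi P s c u).card ≤ m) with hW
  have hWT : W ⊆ T := Finset.filter_subset _ _
  have hE1P : E1 ⊆ P := fun z hz => hc.subB (Finset.mem_union_right _ hz)
  have hE5P : E5 ⊆ P := fun z hz => hc.subB (Finset.mem_union_left _ hz)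
  have hE2P : E2 ⊆ P := fun z hz => hc.subC (Finset.mem_union_left _ hz)
  set S := W ∪ ((E5 ∪ E1) ∪ E2) with hS
  have hSP : S ⊆ P := Finset.union_subset (hWT.trans hc.subT)
    (Finset.union_subset hc.subB hE2P)
  have dB2 : Disjoint (E5 ∪ E1) E2 := Finset.disjoint_of_subset_right
    (Finset.subset_union_left) hc.BC
  have d2 : Disjoint W ((E5 ∪ E1) ∪ E2) := by
    rw [Finset.disjoint_union_right]
    exact ⟨Finset.disjoint_of_subset_left hWT hc.TB, Finset.disjoint_of_subset_left hWT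
      (Finset.disjoint_of_subset_right (Finset.subset_union_left) hc.TC)⟩
  have hABC := hc.card_ABC
  rw [Finset.card_union_of_disjoint hd.d51, Finset.card_union_of_disjoint hd.d23] at hABC
  have hcard : m + 1 ≤ S.card := by
    rw [hS, Finset.card_union_of_disjoint d2, Finset.card_union_of_disjoint dB2,
      Finset.card_union_of_disjoint hd.d51]
    omega
  have h3 : 0 < E3.card := Finset.card_pos.2 hd.n3
  obtain ⟨w0, hw0⟩ : W.Nonempty := Finset.card_pos.1 (by omega)
  have hw0S : w0 ∈ S := Finset.mem_union_left _ hw0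
  have hw0n := hc.neT (hWT hw0)
  have hbS : b ∈ S := by simp [hS, hd.bE]
  have hcS : c ∈ S := by simp [hS, hd.cE]
  obtain ⟨x0, hx0⟩ := hd.n5
  have hx0S : x0 ∈ S := by simp [hS, hx0]
  have hx0b : x0 ≠ b := by
    rintro rfl
    exact Finset.disjoint_left.1 hd.d51 hx0 hd.bE
  obtain ⟨e1, he1, he1b, hmax1, hx1⟩ := hC.be_max hSP hw0S hw0n.2.1
  obtain ⟨e2, he2, he2c, hmax2, hx2⟩ := hC.ga_max hSP hw0S hw0n.2.2
  have hxb : ExtP S b := hf.rot.ext_a hSP hbS
  have hxc : ExtP S c := hf.rot.rot.ext_a hSP hcS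
  have k1 := hmax1 x0 hx0S hx0b
  have beT : ∀ t ∈ T, be t < be x0 := fun t ht =>
    (hC.be_lt t (hc.subT ht) x0 (hE5P hx0) (hc.neT ht).2.1 hx0b).2 (hd.x5 x0 hx0 t ht)
  have he15 : e1 ∈ E5 := by
    rw [hS, Finset.mem_union, Finset.mem_union, Finset.mem_union] at he1
    rcases he1 with h | (h | h) | h
    · have := beT e1 (hWT h); linarith
    · exact h
    · have := five_0a hc hd hC h he1b hx0; linarith
    · have h4 := (hc.nearC e1 (Finset.mem_union_left _ h) w0 (hWT hw0)).2
      have h5 := (hC.be_lt e1 (hE2P h) w0 (hc.subT (hWT hw0)) he1b hw0n.2.1).2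
        (by rw [D_swap']; linarith)
      have := beT w0 (hWT hw0)
      linarith
  have k2 := hmax2 w0 hw0S hw0n.2.2
  have he2W : e2 ∉ W := by
    intro h
    have h5 := (Finset.mem_filter.1 h).2
    have : S ⊆ Hi P s c e2 := by
      intro z hz
      rw [mem_Hi]
      refine ⟨hSP hz, ?_⟩
      by_cases hzc : z = c
      · rw [hzc]; simp
      by_cases hze : z = e2
      · rw [hze]; simp
      exact ((hC.ga_lt z (hSP hz) e2 (hSP he2) hzc he2c).1
        (hC.ga_lt' (hSP hz) (hSP he2) hzc he2c hze (hmax2 z hz hzc))).le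
    have := Finset.card_le_card this
    omega
  have he22 : e2 ∈ E2 := by
    rw [hS, Finset.mem_union, Finset.mem_union] at he2
    rcases he2 with h | h | h
    · exact absurd h he2W
    · have h4 := (hc.nearB e2 h w0 (hWT hw0)).1
      have h5 := (hC.ga_lt e2 (hc.subB h) w0 (hc.subT (hWT hw0)) he2c hw0n.2.2).2
        (by rw [D_swap']; linarith)
      linarith
    · exact h
  obtain ⟨e, hxe, hge⟩ := exists_ext_ge (s := s) (p := v1) (q := v2) hw0S
  have hw0ge := hd.e1' (hWT hw0)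
  have heW : e ∈ W := by
    have heS := hxe.mem
    rw [hS, Finset.mem_union, Finset.mem_union, Finset.mem_union] at heS
    rcases heS with h | (h | h) | h
    · exact h
    · have := (hd.E5s e h).2.2.1; linarith
    · have := (hd.E1s e h).2.1; linarith
    · have := (hd.E2s e h).1; linarith
  have hen := hc.neT (hWT heW)
  have n1 : b ≠ c := hf.bc
  have n2 : e1 ≠ c := by
    rintro rfl
    exact Finset.disjoint_left.1 hc.BC (Finset.mem_union_left _ he15) hc.cC
  have n3 : e2 ≠ b := by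
    rintro rfl
    exact Finset.disjoint_left.1 hc.BC hc.bB (Finset.mem_union_left _ he22)
  have n4 : e1 ≠ e2 := by
    rintro rfl
    exact Finset.disjoint_left.1 hc.BC (Finset.mem_union_left _ he15)
      (Finset.mem_union_left _ he22)
  have n5 : e1 ≠ e := by
    rintro rfl
    exact Finset.disjoint_left.1 hc.TB (hWT heW) (Finset.mem_union_left _ he15)
  have n6 : e2 ≠ e := fun h => he2W (h ▸ heW)
  refine hc.set.thin.five hSP hcard hxb hxc hx1 hx2 hxe ?_
  simp [n1, n2.symm, n3.symm, n4, n5, n6, he1b.symm, he2c.symm, hen.2.1.symm, hen.2.2.symm]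

/-- a point of `T` is not inside a triangle which is right of edge 4 -/
lemma five_tri {f g : ℝ × ℝ} {x y : ℝ × ℝ} (ha : D s f g a < 0) (hx : D s f g x < 0)
    (hy : D s f g y < 0) (ht : 0 ≤ D s f g t) (h1 : 0 < D s a x t) (h2 : 0 < D s a t y) :
    D s x y t < 0 ∨ D s x y t = 0 := by
  by_contra hcon
  push Not at hcon
  have h3 : 0 < D s x y t := lt_of_le_of_ne hcon.1 (Ne.symm hcon.2)
  have id1 : (D s x y t + D s a t y + D s a x t) * D s f g t =
      D s x y t * D s f g a + D s a t y * D s f g x + D s a x t * D s f g y := by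
    simp only [D, dt]; ring
  have m1 := mul_neg_of_pos_of_neg h3 ha
  have m2 := mul_neg_of_pos_of_neg h2 hx
  have m3 := mul_neg_of_pos_of_neg h1 hy
  have m4 : 0 ≤ (D s x y t + D s a t y + D s a x t) * D s f g t :=
    mul_nonneg (by linarith) ht
  linarith

/-- step 2: peeling -/
lemma five_peel (hc : Cls s m P T E4 (E5 ∪ E1) (E2 ∪ E3) a b c)
    (hd : FiveD s T E1 E2 E3 E4 E5 a b c v1 v2 v3 v4 v5) (hC : Crd s P a b c al be ga)
    (hxh : xh ∈ E5) (hxm : ∀ x ∈ E5, al xh ≤ al x) (hyh : yh ∈ E3) (hym : ∀ y ∈ E3, al y ≤ al yh)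
    (hV : V ⊆ T) (hne : V.Nonempty) (hcardV : m + 1 ≤ E3.card + E4.card + E5.card + V.card) :
    ∃ t ∈ V, ∀ z ∈ V, z ≠ t → 0 < D s xh t z ∧ 0 < D s t yh z := by
  classical
  have hf := hc.set.conf
  have hg := hf.gen
  have hs := hf.hs
  have hE1P : E1 ⊆ P := fun z hz => hc.subB (Finset.mem_union_right _ hz)
  have hE5P : E5 ⊆ P := fun z hz => hc.subB (Finset.mem_union_left _ hz)
  have hE3P : E3 ⊆ P := fun z hz => hc.subC (Finset.mem_union_right _ hz)
  set S := V ∪ (E5 ∪ (E4 ∪ E3)) with hS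
  have hSP : S ⊆ P := Finset.union_subset (hV.trans hc.subT)
    (Finset.union_subset hE5P (Finset.union_subset hc.subA hE3P))
  have d43 : Disjoint E4 E3 := Finset.disjoint_of_subset_right
    (Finset.subset_union_right) hc.CA.symm
  have d543 : Disjoint E5 (E4 ∪ E3) := by
    rw [Finset.disjoint_union_right]
    exact ⟨Finset.disjoint_of_subset_left (Finset.subset_union_left) hc.AB.symm,
      Finset.disjoint_of_subset_left (Finset.subset_union_left)
        (Finset.disjoint_of_subset_right (Finset.subset_union_right) hc.BC)⟩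
  have dV : Disjoint V (E5 ∪ (E4 ∪ E3)) := by
    rw [Finset.disjoint_union_right, Finset.disjoint_union_right]
    exact ⟨Finset.disjoint_of_subset_left hV (Finset.disjoint_of_subset_right
        (Finset.subset_union_left) hc.TB), Finset.disjoint_of_subset_left hV hc.TA,
      Finset.disjoint_of_subset_left hV (Finset.disjoint_of_subset_right
        (Finset.subset_union_right) hc.TC)⟩
  have hcard : m + 1 ≤ S.card := by
    rw [hS, Finset.card_union_of_disjoint dV, Finset.card_union_of_disjoint d543,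
      Finset.card_union_of_disjoint d43]
    omega
  obtain ⟨w0, hw0⟩ := hne
  have hmem : ∀ z, z ∈ S ↔ z ∈ V ∨ z ∈ E5 ∨ z ∈ E4 ∨ z ∈ E3 := by
    intro z; simp [hS, Finset.mem_union]
  have haS : a ∈ S := (hmem a).2 (Or.inr (Or.inr (Or.inl hd.aE)))
  have hxhS : xh ∈ S := (hmem xh).2 (Or.inr (Or.inl hxh))
  have hyhS : yh ∈ S := (hmem yh).2 (Or.inr (Or.inr (Or.inr hyh)))
  have hw0S : w0 ∈ S := (hmem w0).2 (Or.inl hw0)
  have hxa : ExtP S a := hf.ext_a hSP haS
  -- an extreme point of E5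
  obtain ⟨e5, hx5, hn5⟩ := exists_ext_neg (s := s) (u := v1) (v := v2) hxhS
    (hd.E5s xh hxh).2.2.1
  have he5 : e5 ∈ E5 := by
    rcases (hmem e5).1 hx5.mem with h | h | h | h
    · have := hd.e1' (hV h); linarith
    · exact h
    · have := (hd.E4s e5 h).2.2.2.1; linarith
    · have := (hd.E3s e5 h).2.2.2.2; linarith
  -- an extreme point of E3
  obtain ⟨e3, hx3, hn3⟩ := exists_ext_neg (s := s) (u := v2) (v := v3) hyhS
    (hd.E3s yh hyh).1
  have he3 : e3 ∈ E3 := by
    rcases (hmem e3).1 hx3.mem with h | h | h | h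
    · have := hd.e2' (hV h); linarith
    · have := (hd.E5s e3 h).2.2.2.1; linarith
    · have := (hd.E4s e3 h).2.2.2.2; linarith
    · exact h
  -- an extreme point of V
  obtain ⟨t, hxt, hge⟩ := exists_ext_ge (s := s) (p := v4) (q := v5) hw0S
  have hw0ge := hd.e4' (hV hw0)
  have htV : t ∈ V := by
    rcases (hmem t).1 hxt.mem with h | h | h | h
    · exact h
    · have := (hd.E5s t h).1; linarith
    · have := (hd.E4s t h).2.1; linarith
    · have := (hd.E3s t h).2.2.1; linarith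
  have htT := hV htV
  have htP := hc.subT htT
  have htn := hc.neT htT
  have hne5 : ∀ x ∈ E5, x ≠ a := by
    rintro x hx rfl
    exact Finset.disjoint_left.1 hc.AB hc.aA (Finset.mem_union_left _ hx)
  have hne3 : ∀ y ∈ E3, y ≠ a := by
    rintro y hy rfl
    exact Finset.disjoint_left.1 hc.CA (Finset.mem_union_right _ hy) hc.aA
  have al5 : ∀ x ∈ E5, al x < al t := fun x hx =>
    (hC.al_lt x (hE5P hx) t htP (hne5 x hx) htn.1).2 (by
      have := (hc.nearB x (Finset.mem_union_left _ hx) t htT).2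
      rw [D_swap']; linarith)
  have al3 : ∀ y ∈ E3, al t < al y := fun y hy =>
    (hC.al_lt t htP y (hE3P hy) htn.1 (hne3 y hy)).2
      (hc.nearC y (Finset.mem_union_right _ hy) t htT).1
  have n53 : e5 ≠ e3 := by
    rintro rfl
    have := al5 e5 he5
    have := al3 e5 he3
    linarith
  have n5t : e5 ≠ t := by
    rintro rfl
    have := al5 e5 he5
    linarith
  have n3t : e3 ≠ t := by
    rintro rfl
    have := al3 e3 he3
    linarith
  have hnd : [a, e5, e3, t].Nodup := by
    simp [(hne5 e5 he5).symm, (hne3 e3 he3).symm, htn.1.symm, n53, n5t, n3t]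
  have honly : ∀ e, ExtP S e → e = a ∨ e = e5 ∨ e = e3 ∨ e = t := fun e he =>
    four_only hc.set.thin hSP hcard hxa hx5 hx3 hxt hnd he
  -- al-min and al-max
  obtain ⟨f, hf1, hfa, hfmin, hxf⟩ := hC.al_min hSP hw0S (hc.neT (hV hw0)).1
  have hfe : f = e5 := by
    rcases honly f hxf with h | h | h | h
    · exact absurd h hfa
    · exact h
    · have h1 := hfmin t hxt.mem htn.1
      have h2 := al3 e3 he3
      rw [h] at h1; linarith
    · have h1 := hfmin e5 hx5.mem (hne5 e5 he5)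
      have h2 := al5 e5 he5
      rw [h] at h1; linarith
  have hxe : xh = e5 := by
    by_contra hne
    have h1 := hfmin xh hxhS (hne5 xh hxh)
    rw [hfe] at h1
    have h2 := hxm e5 he5
    exact hC.al_ne (hE5P hxh) (hE5P he5) (hne5 xh hxh) (hne5 e5 he5) hne (le_antisymm h2 h1)
  obtain ⟨g, hg1, hga, hgmax, hxg⟩ := hC.al_max hSP hw0S (hc.neT (hV hw0)).1
  have hge' : g = e3 := by
    rcases honly g hxg with h | h | h | h
    · exact absurd h hga
    · have h1 := hgmax t hxt.mem htn.1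
      have h2 := al5 e5 he5
      rw [h] at h1; linarith
    · exact h
    · have h1 := hgmax e3 hx3.mem (hne3 e3 he3)
      have h2 := al3 e3 he3
      rw [h] at h1; linarith
  have hye : yh = e3 := by
    by_contra hne
    have h1 := hgmax yh hyhS (hne3 yh hyh)
    rw [hge'] at h1
    have h2 := hym e3 he3
    exact hC.al_ne (hE3P hyh) (hE3P he3) (hne3 yh hyh) (hne3 e3 he3) hne (le_antisymm h1 h2)
  subst hxe hye
  have hxhP := hE5P hxh
  have hyhP := hE3P hyh
  -- position of t
  have hxyt : D s xh yh t < 0 := by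
    rcases five_tri (hd.E4s a hd.aE).2.1 (hd.E5s xh hxh).1 (hd.E3s yh hyh).2.2.1 (hd.e4' htT)
      ((hC.al_lt xh hxhP t htP (hne5 xh hxh) htn.1).1 (al5 xh hxh))
      ((hC.al_lt t htP yh hyhP htn.1 (hne3 yh hyh)).1 (al3 yh hyh)) with h | h
    · exact h
    · exact absurd h (hg.D_ne hs hxhP hyhP htP n53 n5t n3t)
  have hxty : 0 < D s xh t yh := by rw [D_swap']; linarith
  refine ⟨t, htV, ?_⟩
  intro z hz hzt
  have hzT := hV hz
  have hzP := hc.subT hzT
  have hzx : z ≠ xh := by
    rintro rfl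
    exact Finset.disjoint_left.1 hc.TB hzT (Finset.mem_union_left _ hxh)
  have hzy : z ≠ yh := by
    rintro rfl
    exact Finset.disjoint_left.1 hc.TC hzT (Finset.mem_union_right _ hyh)
  have hzS : z ∈ S := (hmem z).2 (Or.inl hz)
  constructor
  · rcases pos_or_neg hg hs hxhP htP hzP n5t hzx.symm hzt.symm with h | h
    · exact h
    · exfalso
      obtain ⟨e, hxe', hne'⟩ := exists_ext_neg hzS h
      rcases honly e hxe' with h1 | h1 | h1 | h1
      · rw [h1] at hne'
        have := hC.la hxhP htP (hne5 xh hxh) htn.1 (al5 xh hxh)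
        linarith
      · rw [h1] at hne'; simp at hne'
      · rw [h1] at hne'; linarith
      · rw [h1] at hne'; simp at hne'
  · rcases pos_or_neg hg hs htP hyhP hzP n3t.symm hzt.symm hzy.symm with h | h
    · exact h
    · exfalso
      obtain ⟨e, hxe', hne'⟩ := exists_ext_neg hzS h
      rcases honly e hxe' with h1 | h1 | h1 | h1
      · rw [h1] at hne'
        have := hC.la htP hyhP htn.1 (hne3 yh hyh) (al3 yh hyh)
        linarith
      · rw [h1, D_cyc] at hne'; linarith
      · rw [h1] at hne'; simp at hne'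
      · rw [h1] at hne'; simp at hne'

/-- step 3 -/
lemma five_step3 (hc : Cls s m P T E4 (E5 ∪ E1) (E2 ∪ E3) a b c)
    (hd : FiveD s T E1 E2 E3 E4 E5 a b c v1 v2 v3 v4 v5) (hC : Crd s P a b c al be ga)
    (hxh : xh ∈ E5) (hxm : ∀ x ∈ E5, be x ≤ be xh) (hV : V ⊆ T) (ht : t ∈ V)
    (hH : m + 1 ≤ (Hi P s c t).card) (hl : ∀ z ∈ V, z ≠ t → 0 < D s xh t z) :
    ∀ z ∈ V, z ≠ t → ga t < ga z := by
  classical
  have hf := hc.set.conf
  have hg := hf.gen
  have hs := hf.hs
  have hE1P : E1 ⊆ P := fun z hz => hc.subB (Finset.mem_union_right _ hz)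
  have hE5P : E5 ⊆ P := fun z hz => hc.subB (Finset.mem_union_left _ hz)
  have hE3P : E3 ⊆ P := fun z hz => hc.subC (Finset.mem_union_right _ hz)
  have htT := hV ht
  have htP := hc.subT htT
  have htn := hc.neT htT
  have hxhP := hE5P hxh
  have hxhb : xh ≠ b := by
    rintro rfl
    exact Finset.disjoint_left.1 hd.d51 hxh hd.bE
  have hxhc : xh ≠ c := by
    rintro rfl
    exact Finset.disjoint_left.1 hc.BC (Finset.mem_union_left _ hxh) hc.cC
  have hxt : xh ≠ t := by
    rintro rfl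
    exact Finset.disjoint_left.1 hc.TB htT (Finset.mem_union_left _ hxh)
  have gx : ga xh < ga t := (hC.ga_lt xh hxhP t htP hxhc htn.2.2).2 (by
    have := (hc.nearB xh (Finset.mem_union_left _ hxh) t htT).1
    rw [D_swap']; linarith)
  have bx : be t < be xh := (hC.be_lt t htP xh hxhP htn.2.1 hxhb).2 (hd.x5 xh hxh t htT)
  set H := Hi P s c t with hHd
  have hHP : H ⊆ P := fun z hz => (mem_Hi.1 hz).1
  have hmem : ∀ z ∈ P, z ≠ c → ga z ≤ ga t → z ∈ H := by
    intro z hz hzc hle
    rw [hHd, mem_Hi]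
    refine ⟨hz, ?_⟩
    by_cases hzt : z = t
    · rw [hzt]; simp
    exact ((hC.ga_lt z hz t htP hzc htn.2.2).1 (hC.ga_lt' hz htP hzc htn.2.2 hzt hle)).le
  have hmem' : ∀ z ∈ H, z ≠ c → ga z ≤ ga t := by
    intro z hz hzc
    have hz' := mem_Hi.1 hz
    by_contra hcon
    have := (hC.ga_lt t htP z hz'.1 htn.2.2 hzc).1 (not_le.1 hcon)
    rw [D_swap'] at this
    linarith [hz'.2]
  have hbH : b ∈ H := hmem b hf.hb hf.bc (hC.ga_b htP htn.2.1 htn.2.2).le
  have hcH : c ∈ H := by rw [hHd, mem_Hi]; exact ⟨hf.hc, by simp⟩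
  have htH : t ∈ H := hmem t htP htn.2.2 le_rfl
  have hxH : xh ∈ H := hmem xh hxhP hxhc gx.le
  have ex_b : ExtP H b := hf.rot.ext_a hHP hbH
  have ex_c : ExtP H c := hf.rot.rot.ext_a hHP hcH
  have ex_t : ExtP H t := hC.ext_ga_max hHP htH htn.2.2 (fun z hz hzc => hmem' z hz hzc)
  have ex_x : ExtP H xh := by
    refine hC.ext_be_max hHP hxH hxhb (fun z hz hzb => ?_)
    have hzP := hHP hz
    by_cases hzc : z = c
    · rw [hzc]; exact (hC.be_c hxhP hxhb hxhc).le
    have hga := hmem' z hz hzc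
    rcases hc.cover z hzP with h | h | h | h
    · exact ((hC.be_lt z hzP xh hxhP hzb hxhb).2 (hd.x5 xh hxh z h)).le
    · have h1 := (hc.nearA z h t htT).2
      have h2 := (hC.ga_lt t htP z hzP htn.2.2 hzc).2 h1
      linarith
    · rcases Finset.mem_union.1 h with h | h
      · exact hxm z h
      · exact (five_0a hc hd hC h hzb hxh).le
    · have h1 := (hc.nearC z h t htT).2
      have h2 := (hC.be_lt z hzP t htP hzb htn.2.1).2 (by rw [D_swap']; linarith)
      linarith
  have hnd : [b, c, t, xh].Nodup := by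
    simp [hf.bc, htn.2.1.symm, htn.2.2.symm, hxhb.symm, hxhc.symm, hxt.symm]
  intro z hz hzt
  have hzT := hV hz
  have hzP := hc.subT hzT
  have hzn := hc.neT hzT
  by_contra hcon
  have hzH : z ∈ H := hmem z hzP hzn.2.2 (not_lt.1 hcon)
  obtain ⟨e, hxe, hpe⟩ := exists_ext_pos hzH (hl z hz hzt)
  rcases four_only hc.set.thin hHP hH ex_b ex_c ex_t ex_x hnd hxe with h | h | h | h
  · rw [h] at hpe
    have := hC.rb hxhP htP hxhb htn.2.1 bx
    linarith
  · rw [h] at hpe
    have := hC.rc hxhP htP hxhc htn.2.2 gx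
    linarith
  · rw [h] at hpe; simp at hpe
  · rw [h] at hpe; simp at hpe

/-- step 4 -/
lemma five_fin {s : ℝ} {m : ℕ} {P : Finset (ℝ × ℝ)} {a b c u w x t' : ℝ × ℝ}
    {al be ga : ℝ × ℝ → ℝ} (hset : Setting s m P a b c) (hC : Crd s P a b c al be ga)
    (hu : In P a b c u) (hw : In P a b c w) (ga1 : ga u < ga w) (be1 : be u < be w)
    (al1 : al w < al u) (hx : x ∈ P) (hxa : x ≠ a) (hxb : x ≠ b) (hxc : x ≠ c)
    (x1 : al x < al u) (x2 : be w < be x) (x3 : ga x < ga u)
    (ht : In P a b c t') (t1 : ga t' < ga u) (t2 : be t' < be u)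
    (h1 : m + 1 ≤ (Hi P s c u).card) (h2 : m + 1 ≤ (Lo P s b u).card) : False := by
  classical
  have hf := hset.conf
  have hg := hf.gen
  have hs := hf.hs
  have huw : u ≠ w := by rintro rfl; linarith
  have sa := hC.ra hu.mem hw.mem hu.na hw.na al1
  have sb := hC.lb hu.mem hw.mem hu.nb hw.nb be1
  have sc := hC.rc hu.mem hw.mem hu.nc hw.nc ga1
  have sx := hC.oppb hu hx hxa hxc x1 x3 sa sc
  set Q := sR P s u w with hQ
  set L := sL P s u w with hL
  have hcard : L.card + Q.card = P.card + 2 := card_sLR hg hs hu.mem hw.mem huw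
  have hPc := hset.card
  have hQu : ExtP Q u := sR_extp hg hs hu.mem hw.mem huw
  have hQw : ExtP Q w := sR_extq hg hs hu.mem hw.mem huw
  have hLu : ExtP L u := sL_extp hg hs hu.mem hw.mem huw
  have hLw : ExtP L w := sL_extq hg hs hu.mem hw.mem huw
  have hQa : ExtP Q a := hf.ext_a sR_sub (mem_sR.2 ⟨hf.ha, sa.le⟩)
  have hQc : ExtP Q c := hf.rot.rot.ext_a sR_sub (mem_sR.2 ⟨hf.hc, sc.le⟩)
  have hLb : ExtP L b := hf.rot.ext_a sL_sub (mem_sL.2 ⟨hf.hb, sb.le⟩)
  have hndQ : [a, c, u, w].Nodup := by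
    simp [hf.ca.symm, hu.na.symm, hw.na.symm, hu.nc.symm, hw.nc.symm, huw]
  obtain ⟨g, hgQ, hgc, hgmin, hxg⟩ := hC.ga_min (S := Q) sR_sub hQu.mem hu.nc
  have hga : g ≠ a := by
    rintro rfl
    have := hgmin u hQu.mem hu.nc
    have := hC.ga_a hu.mem hu.na hu.nc
    linarith
  have hgw : g ≠ w := by
    rintro rfl
    have := hgmin u hQu.mem hu.nc
    linarith
  by_cases hA : ∃ z ∈ L, z ≠ b ∧ be z < be u
  · obtain ⟨z, hz, hzb, hzu⟩ := hA
    obtain ⟨e1, he1, he1b, hmin1, hx1⟩ := hC.be_min (S := L) sL_sub hLu.mem hu.nb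
    obtain ⟨e2, he2, he2b, hmax2, hx2⟩ := hC.be_max (S := L) sL_sub hLu.mem hu.nb
    have k1 := hmin1 z hz hzb
    have k2 := hmax2 x (mem_sL.2 ⟨hx, sx.le⟩) hxb
    have n1 : e1 ≠ u := by rintro rfl; linarith
    have n2 : e1 ≠ w := by rintro rfl; linarith
    have n3 : e2 ≠ u := by rintro rfl; linarith
    have n4 : e2 ≠ w := by rintro rfl; linarith
    have n5 : e1 ≠ e2 := by rintro rfl; linarith
    have hLle : L.card ≤ m := light_of_five hset.thin sL_sub hLb hLu hLw hx1 hx2 (by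
      simp [hu.nb.symm, hw.nb.symm, he1b.symm, he2b.symm, huw, n1.symm, n2.symm, n3.symm, n4.symm,
        n5])
    have hQh : m + 1 ≤ Q.card := by omega
    have hgu : g = u := by
      rcases four_only hset.thin sR_sub hQh hQa hQc hQu hQw hndQ hxg with h | h | h | h
      · exact absurd h hga
      · exact absurd h hgc
      · exact h
      · exact absurd h hgw
    have hsub : insert w ((Hi P s c u).erase c) ⊆ L := by
      intro z hz
      rw [Finset.mem_insert, Finset.mem_erase] at hz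
      rcases hz with rfl | ⟨hzc, hz⟩
      · exact hLw.mem
      · rw [mem_Hi] at hz
        by_contra hcon
        have hzQ : z ∈ Q := by
          rw [hQ, mem_sR]
          refine ⟨hz.1, ?_⟩
          by_contra h3
          exact hcon (mem_sL.2 ⟨hz.1, (not_le.1 h3).le⟩)
        have h3 := hgmin z hzQ hzc
        rw [hgu] at h3
        have hzu : z ≠ u := by rintro rfl; exact hcon hLu.mem
        have h4 := hC.ga_lt' hu.mem hz.1 hu.nc hzc hzu.symm h3
        have h5 := (hC.ga_lt u hu.mem z hz.1 hu.nc hzc).1 h4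
        rw [D_swap'] at h5
        linarith [hz.2]
    have h3 := Finset.card_le_card hsub
    have hwnot : w ∉ (Hi P s c u).erase c := by
      rw [Finset.mem_erase, mem_Hi]
      rintro ⟨_, _, h4⟩
      have := (hC.ga_lt u hu.mem w hw.mem hu.nc hw.nc).1 ga1
      rw [D_swap'] at this; linarith
    have hcHi : c ∈ Hi P s c u := mem_Hi.2 ⟨hf.hc, by simp⟩
    rw [Finset.card_insert_of_notMem hwnot, Finset.card_erase_of_mem hcHi] at h3
    omega
  · push Not at hA
    have hR : ∀ z ∈ P, z ≠ b → be z < be u → z ∈ Q := by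
      intro z hz hzb hlt
      by_contra hcon
      have hzL : z ∈ L := by
        rw [hL, mem_sL]
        refine ⟨hz, ?_⟩
        by_contra h3
        exact hcon (mem_sR.2 ⟨hz, (not_le.1 h3).le⟩)
      have := hA z hzL hzb
      linarith
    have hsub : insert w ((Lo P s b u).erase b) ⊆ Q := by
      intro z hz
      rw [Finset.mem_insert, Finset.mem_erase] at hz
      rcases hz with rfl | ⟨hzb, hz⟩
      · exact hQw.mem
      · rw [mem_Lo] at hz
        by_cases hzu : z = u
        · rw [hzu]; exact hQu.mem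
        apply hR z hz.1 hzb
        by_contra h3
        have h4 := hC.be_lt' hu.mem hz.1 hu.nb hzb (Ne.symm hzu) (not_lt.1 h3)
        have h5 := (hC.be_lt u hu.mem z hz.1 hu.nb hzb).1 h4
        rw [D_swap'] at h5
        linarith [hz.2]
    have h3 := Finset.card_le_card hsub
    have hwnot : w ∉ (Lo P s b u).erase b := by
      rw [Finset.mem_erase, mem_Lo]
      rintro ⟨_, _, h4⟩
      have := (hC.be_lt u hu.mem w hw.mem hu.nb hw.nb).1 be1
      rw [D_swap'] at this; linarith
    have hbLo : b ∈ Lo P s b u := mem_Lo.2 ⟨hf.hb, by simp⟩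
    rw [Finset.card_insert_of_notMem hwnot, Finset.card_erase_of_mem hbLo] at h3
    have hQh : m + 1 ≤ Q.card := by omega
    have k := hgmin t' (hR t' ht.mem ht.nb t2) ht.nc
    rcases four_only hset.thin sR_sub hQh hQa hQc hQu hQw hndQ hxg with h | h | h | h
    · exact absurd h hga
    · exact absurd h hgc
    · rw [h] at k; linarith
    · exact absurd h hgw

/-- the set after `j` peeling steps -/
lemma five_reach (hc : Cls s m P T E4 (E5 ∪ E1) (E2 ∪ E3) a b c)
    (hd : FiveD s T E1 E2 E3 E4 E5 a b c v1 v2 v3 v4 v5) (hC : Crd s P a b c al be ga)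
    (hxh : xh ∈ E5) (hxm : ∀ x ∈ E5, al xh ≤ al x ∧ be x ≤ be xh)
    (hyh : yh ∈ E3) (hym : ∀ y ∈ E3, al y ≤ al yh ∧ ga y ≤ ga yh) :
    ∀ j : ℕ, j + 1 ≤ E3.card + E4.card + E5.card → j + 1 ≤ m →
      ∃ V ⊆ T, V.card + j = m ∧ ∀ t ∈ T, t ∉ V →
        ((Hi P s c t).card ≤ m ∨ ∀ z ∈ V, ga t < ga z) ∧
        ((Lo P s b t).card ≤ m ∨ ∀ z ∈ V, be t < be z) := by
  classical
  intro j
  induction j with
  | zero =>
    intro _ _
    exact ⟨T, Finset.Subset.refl T, by simp [hc.cardT], fun t ht h => absurd ht h⟩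
  | succ j ih =>
    intro h1 h2
    obtain ⟨V, hV, hVc, hinv⟩ := ih (by omega) (by omega)
    have hne : V.Nonempty := Finset.card_pos.1 (by omega)
    obtain ⟨t, ht, hpeel⟩ := five_peel hc hd hC hxh (fun x hx => (hxm x hx).1) hyh
      (fun y hy => (hym y hy).1) hV hne (by omega)
    refine ⟨V.erase t, (Finset.erase_subset _ _).trans hV, ?_, ?_⟩
    · rw [Finset.card_erase_of_mem ht]; omega
    · intro r hr hrV
      by_cases hrt : r = t
      · subst hrt
        constructor
        · by_cases h3 : (Hi P s c r).card ≤ m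
          · exact Or.inl h3
          · right
            intro z hz
            rw [Finset.mem_erase] at hz
            exact five_step3 hc hd hC hxh (fun x hx => (hxm x hx).2) hV ht (by omega)
              (fun z hz hzt => (hpeel z hz hzt).1) z hz.2 hz.1
        · by_cases h3 : (Lo P s b r).card ≤ m
          · exact Or.inl h3
          · right
            intro z hz
            rw [Finset.mem_erase] at hz
            have hc' : Cls (-s) m P T E4 (E3 ∪ E2) (E1 ∪ E5) a c b := by
              rw [Finset.union_comm E3 E2, Finset.union_comm E1 E5]; exact hc.refl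
            refine five_step3 (al := fun z => - al z) hc' hd.refl (Crd.refl hC) hyh
              (fun x hx => (hym x hx).2) hV ht ?_ ?_ z hz.2 hz.1
            · rw [Hi_eq, neg_neg]; omega
            · intro z hz hzt
              have := (hpeel z hz hzt).2
              rw [D_neg, D_swap]; linarith
      · have hrV' : r ∉ V := fun h => hrV (Finset.mem_erase.2 ⟨hrt, h⟩)
        obtain ⟨i1, i2⟩ := hinv r hr hrV'
        constructor
        · rcases i1 with i1 | i1
          · exact Or.inl i1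
          · exact Or.inr fun z hz => i1 z (Finset.mem_of_mem_erase hz)
        · rcases i2 with i2 | i2
          · exact Or.inl i2
          · exact Or.inr fun z hz => i2 z (Finset.mem_of_mem_erase hz)

/-- `V1` is down-closed -/
lemma hi_mono (hC : Crd s P a b c al be ga) (hu : In P a b c u) (hw : In P a b c w)
    (h : ga u ≤ ga w) : (Hi P s c u).card ≤ (Hi P s c w).card := by
  apply Finset.card_le_card
  intro z hz
  rw [mem_Hi] at hz ⊢
  refine ⟨hz.1, ?_⟩
  by_cases hzc : z = c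
  · rw [hzc]; simp
  by_cases hzw : z = w
  · rw [hzw]; simp
  have h1 : ga z ≤ ga u := by
    by_contra hcon
    have := (hC.ga_lt u hu.mem z hz.1 hu.nc hzc).1 (not_le.1 hcon)
    rw [D_swap'] at this
    linarith [hz.2]
  exact ((hC.ga_lt z hz.1 w hw.mem hzc hw.nc).1
    (hC.ga_lt' hz.1 hw.mem hzc hw.nc hzw (by linarith))).le

/-- MODULE FIVE -/
theorem five_star_false (hc : Cls s m P T E4 (E5 ∪ E1) (E2 ∪ E3) a b c)
    (hd : FiveD s T E1 E2 E3 E4 E5 a b c v1 v2 v3 v4 v5) : False := by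
  classical
  obtain ⟨al, be, ga, hC⟩ := exists_crd hc.set.conf
  have hf := hc.set.conf
  have hc' : Cls (-s) m P T E4 (E3 ∪ E2) (E1 ∪ E5) a c b := by
    rw [Finset.union_comm E3 E2, Finset.union_comm E1 E5]; exact hc.refl
  have hC' := Crd.refl hC
  obtain ⟨xh, hxh, hxm⟩ := five_0c hc hd hC
  obtain ⟨yh, hyh, hym'⟩ := five_0c hc' hd.refl hC'
  have hym : ∀ y ∈ E3, al y ≤ al yh ∧ ga y ≤ ga yh := fun y hy => by
    have := hym' y hy
    exact ⟨by linarith [this.1], this.2⟩
  have hV1 := five_V1 hc hd hC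
  have hV2 := five_V1 hc' hd.refl hC'
  have hABC := hc.card_ABC
  rw [Finset.card_union_of_disjoint hd.d51, Finset.card_union_of_disjoint hd.d23] at hABC
  have p1 : 0 < E1.card := Finset.card_pos.2 ⟨b, hd.bE⟩
  have p2 : 0 < E2.card := Finset.card_pos.2 ⟨c, hd.cE⟩
  have p3 : 0 < E3.card := Finset.card_pos.2 hd.n3
  have p4 : 0 < E4.card := Finset.card_pos.2 ⟨a, hd.aE⟩
  have p5 : 0 < E5.card := Finset.card_pos.2 hd.n5
  obtain ⟨V, hV, hVc, hinv⟩ := five_reach hc hd hC hxh hxm hyh hym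
    (E3.card + E4.card + E5.card - 2) (by omega) (by omega)
  obtain ⟨u, hu, hpeel⟩ := five_peel hc hd hC hxh (fun x hx => (hxm x hx).1) hyh
    (fun y hy => (hym y hy).1) hV (Finset.card_pos.1 (by omega)) (by omega)
  have huT := hV hu
  have huP := hc.subT huT
  have hun := hc.neT huT
  have hIn : ∀ t ∈ T, In P a b c t := fun t ht =>
    ⟨hc.subT ht, (hc.neT ht).1, (hc.neT ht).2.1, (hc.neT ht).2.2⟩
  have hIn' : ∀ t ∈ T, In P a c b t := fun t ht =>
    ⟨hc.subT ht, (hc.neT ht).1, (hc.neT ht).2.2, (hc.neT ht).2.1⟩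
  -- `u ∉ V1`
  have hu1 : m + 1 ≤ (Hi P s c u).card := by
    by_contra hcon
    have hsub : insert u (T \ V) ⊆ T.filter (fun u => (Hi P s c u).card ≤ m) := by
      intro t ht
      rw [Finset.mem_filter]
      rw [Finset.mem_insert, Finset.mem_sdiff] at ht
      rcases ht with rfl | ⟨ht, htV⟩
      · exact ⟨huT, by omega⟩
      · refine ⟨ht, ?_⟩
        rcases (hinv t ht htV).1 with h | h
        · exact h
        · have := hi_mono hC (hIn t ht) (hIn u huT) (h u hu).le
          omega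
    have h1 := Finset.card_le_card hsub
    rw [Finset.card_insert_of_notMem (by simp [hu]), Finset.card_sdiff_of_subset hV, hc.cardT] at h1
    omega
  have hu2 : m + 1 ≤ (Lo P s b u).card := by
    by_contra hcon
    have hLH : ∀ t, Lo P s b t = Hi P (-s) b t := fun t => by rw [Hi_eq, neg_neg]
    have hsub : insert u (T \ V) ⊆ T.filter (fun u => (Hi P (-s) b u).card ≤ m) := by
      intro t ht
      rw [Finset.mem_filter]
      rw [Finset.mem_insert, Finset.mem_sdiff] at ht
      rcases ht with rfl | ⟨ht, htV⟩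
      · exact ⟨huT, by rw [← hLH]; omega⟩
      · refine ⟨ht, ?_⟩
        rw [← hLH]
        rcases (hinv t ht htV).2 with h | h
        · exact h
        · have := hi_mono hC' (hIn' t ht) (hIn' u huT) (h u hu).le
          rw [← hLH, ← hLH] at this
          omega
    have h1 := Finset.card_le_card hsub
    rw [Finset.card_insert_of_notMem (by simp [hu]), Finset.card_sdiff_of_subset hV, hc.cardT] at h1
    omega
  -- the second point
  obtain ⟨w, hw, hwu⟩ := exists_other (a := u) (by omega : 2 ≤ V.card)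
  have hwT := hV hw
  have ga1 : ga u < ga w := five_step3 hc hd hC hxh (fun x hx => (hxm x hx).2) hV hu hu1
    (fun z hz hzt => (hpeel z hz hzt).1) w hw hwu
  have be1 : be u < be w := by
    refine five_step3 (al := fun z => - al z) hc' hd.refl hC' hyh
      (fun x hx => (hym x hx).2) hV hu ?_ ?_ w hw hwu
    · rw [Hi_eq, neg_neg]; exact hu2
    · intro z hz hzt
      have := (hpeel z hz hzt).2
      rw [D_neg, D_swap]; linarith
  -- the third point
  have hTV : (T \ V).Nonempty := by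
    rw [← Finset.card_pos, Finset.card_sdiff_of_subset hV, hc.cardT]; omega
  obtain ⟨t', ht'⟩ := hTV
  rw [Finset.mem_sdiff] at ht'
  have ht'u : t' ≠ u := fun h => ht'.2 (h ▸ hu)
  have t1 : ga t' < ga u := by
    rcases (hinv t' ht'.1 ht'.2).1 with h | h
    · by_contra hcon
      have := hi_mono hC (hIn u huT) (hIn t' ht'.1) (not_lt.1 hcon)
      omega
    · exact h u hu
  have t2 : be t' < be u := by
    rcases (hinv t' ht'.1 ht'.2).2 with h | h
    · by_contra hcon
      have := hi_mono hC' (hIn' u huT) (hIn' t' ht'.1) (not_lt.1 hcon)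
      rw [Hi_eq, Hi_eq, neg_neg] at this
      omega
    · exact h u hu
  have hxhB : xh ∈ E5 ∪ E1 := Finset.mem_union_left _ hxh
  have hyhC : yh ∈ E2 ∪ E3 := Finset.mem_union_right _ hyh
  have hxhP := hc.subB hxhB
  have hyhP := hc.subC hyhC
  have hxa : xh ≠ a := by rintro rfl; exact Finset.disjoint_left.1 hc.AB hc.aA hxhB
  have hxb : xh ≠ b := by rintro rfl; exact Finset.disjoint_left.1 hd.d51 hxh hd.bE
  have hxc : xh ≠ c := by rintro rfl; exact Finset.disjoint_left.1 hc.BC hxhB hc.cC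
  have hya : yh ≠ a := by rintro rfl; exact Finset.disjoint_left.1 hc.CA hyhC hc.aA
  have hyb : yh ≠ b := by rintro rfl; exact Finset.disjoint_left.1 hc.BC hc.bB hyhC
  have hyc : yh ≠ c := by rintro rfl; exact Finset.disjoint_left.1 hd.d23 hd.cE hyh
  have hIu := hIn u huT
  have hIw := hIn w hwT
  rcases lt_or_gt_of_ne (hC.al_ne huP (hc.subT hwT) hun.1 (hc.neT hwT).1 hwu.symm) with hal | hal
  · -- mirror image
    refine five_fin hc.set.refl hC' (hIn' u huT) (hIn' w hwT) be1 ga1 (by simpa using hal)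
      hyhP hya hyc hyb ?_ ?_ ?_ (hIn' t' ht'.1) t2 t1 (by rw [Hi_eq, neg_neg]; exact hu2)
      (by rw [← Hi_eq]; exact hu1)
    · have := (hC.al_lt u huP yh hyhP hun.1 hya).2 (hc.nearC yh hyhC u huT).1
      simpa using this
    · exact (hC.ga_lt w hIw.mem yh hyhP hIw.nc hyc).2 (hd.y3 yh hyh w hwT)
    · exact (hC.be_lt yh hyhP u huP hyb hun.2.1).2 (by
        have := (hc.nearC yh hyhC u huT).2
        rw [D_swap']; linarith)
  · refine five_fin hc.set hC hIu hIw ga1 be1 hal hxhP hxa hxb hxc ?_ ?_ ?_ (hIn t' ht'.1) t1 t2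
      hu1 hu2
    · exact (hC.al_lt xh hxhP u huP hxa hun.1).2 (by
        have := (hc.nearB xh hxhB u huT).2
        rw [D_swap']; linarith)
    · exact (hC.be_lt w hIw.mem xh hxhP hIw.nb hxb).2 (hd.x5 xh hxh w hwT)
    · exact (hC.ga_lt xh hxhP u huP hxc hun.2.2).2 (by
        have := (hc.nearB xh hxhB u huT).1
        rw [D_swap']; linarith)

end five

end Pool.Agent.G5.Tri
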