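import Pool.Agent.Lib_helper1.G5T.Tools

/-!
# MP_022ed3_co, triangular hull: module W (three classes with at least two points)
-/

set_option autoImplicit false
set_option linter.unusedVariables false

namespace Pool.Agent.G5.Tri

open Pool.Agent.G5.Lower Pool.Agent.G5.Planar Pool.Agent.G5.Core Pool.Agent.G5.Quad
  Pool.Agent.G5.Frame

/-- `{z : z ≤ u}` in the order at `h`, with `h` -/
noncomputable def Lo (P : Finset (ℝ × ℝ)) (s : ℝ) (h u : ℝ × ℝ) : Finset (ℝ × ℝ) :=
  by classical exact P.filter (fun z => 0 ≤ D s h z u)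

/-- `{z : z ≥ u}` in the order at `h`, with `h` -/
noncomputable def Hi (P : Finset (ℝ × ℝ)) (s : ℝ) (h u : ℝ × ℝ) : Finset (ℝ × ℝ) :=
  by classical exact P.filter (fun z => D s h z u ≤ 0)

section w

variable {s : ℝ} {m : ℕ} {P T A B C S : Finset (ℝ × ℝ)} {a b c p q x y z u u' h : ℝ × ℝ}

lemma mem_Lo : z ∈ Lo P s h u ↔ z ∈ P ∧ 0 ≤ D s h z u := by
  unfold Lo; simp [Finset.mem_filter]
lemma mem_Hi : z ∈ Hi P s h u ↔ z ∈ P ∧ D s h z u ≤ 0 := by
  unfold Hi; simp [Finset.mem_filter]

lemma Hi_eq : Hi P s h u = Lo P (-s) h u := by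
  ext z; rw [mem_Hi, mem_Lo, D_neg]; constructor <;> rintro ⟨h1, h2⟩ <;> exact ⟨h1, by linarith⟩

lemma Cls.card_ABC (hc : Cls s m P T A B C a b c) : A.card + B.card + C.card = m + 1 := by
  classical
  have h1 : P = T ∪ (A ∪ (B ∪ C)) := by
    ext z
    simp only [Finset.mem_union]
    constructor
    · intro hz
      rcases hc.cover z hz with h | h | h | h <;> simp [h]
    · rintro (h | h | h | h)
      · exact hc.subT h
      · exact hc.subA h
      · exact hc.subB h
      · exact hc.subC h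
  have d1 : Disjoint B C := hc.BC
  have d2 : Disjoint A (B ∪ C) := by
    rw [Finset.disjoint_union_right]; exact ⟨hc.AB, hc.CA.symm⟩
  have d3 : Disjoint T (A ∪ (B ∪ C)) := by
    rw [Finset.disjoint_union_right, Finset.disjoint_union_right]
    exact ⟨hc.TA, hc.TB, hc.TC⟩
  have h2 := hc.set.card
  rw [h1, Finset.card_union_of_disjoint d3, Finset.card_union_of_disjoint d2,
    Finset.card_union_of_disjoint d1, hc.cardT] at h2
  omega

lemma Cls.neT (hc : Cls s m P T A B C a b c) (hu : u ∈ T) : u ≠ a ∧ u ≠ b ∧ u ≠ c := by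
  refine ⟨?_, ?_, ?_⟩ <;> rintro rfl
  · exact Finset.disjoint_left.1 hc.TA hu hc.aA
  · exact Finset.disjoint_left.1 hc.TB hu hc.bB
  · exact Finset.disjoint_left.1 hc.TC hu hc.cC

/-- good for the pair `B, C` -/
def GoodA (s : ℝ) (m : ℕ) (P B C : Finset (ℝ × ℝ)) (b c u : ℝ × ℝ) : Prop :=
  ((∀ x ∈ B, x ≠ b → 0 < D s b x u) ∧ m + 1 ≤ (Lo P s b u).card) ∨
    ((∀ y ∈ C, y ≠ c → D s c y u < 0) ∧ m + 1 ≤ (Hi P s c u).card)

lemma bad_card (hc : Cls s m P T A B C a b c) (he : EdgeR s T (B ∪ C) p q)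
    [DecidablePred (fun u => ¬ GoodA s m P B C b c u)] :
    (T.filter (fun u => ¬ GoodA s m P B C b c u)).card < A.card := by
  classical
  by_contra hcon
  push Not at hcon
  set V := T.filter (fun u => ¬ GoodA s m P B C b c u) with hV
  have hVT : V ⊆ T := Finset.filter_subset _ _
  set S := V ∪ (B ∪ C) with hS
  have hSP : S ⊆ P := by
    intro z hz
    rw [hS, Finset.mem_union, Finset.mem_union] at hz
    rcases hz with h | h | h
    · exact hc.subT (hVT h)
    · exact hc.subB h
    · exact hc.subC h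
  have hd1 : Disjoint V (B ∪ C) := by
    rw [Finset.disjoint_union_right]
    exact ⟨Finset.disjoint_of_subset_left hVT hc.TB, Finset.disjoint_of_subset_left hVT hc.TC⟩
  have hcard : m + 1 ≤ S.card := by
    rw [hS, Finset.card_union_of_disjoint hd1, Finset.card_union_of_disjoint hc.BC]
    have := hc.card_ABC
    omega
  have hA1 : 0 < A.card := Finset.card_pos.2 ⟨a, hc.aA⟩
  obtain ⟨v0, hv0⟩ : V.Nonempty := Finset.card_pos.1 (by omega)
  have hf := hc.set.conf
  have hbS : b ∈ S := by simp [hS, hc.bB]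
  have hcS : c ∈ S := by simp [hS, hc.cC]
  have hv0S : v0 ∈ S := by simp [hS, hv0]
  have hv0n := hc.neT (hVT hv0)
  -- be-max
  obtain ⟨e1, he1, he1b, hmax1⟩ := hf.rot.exists_max hSP ⟨v0, hv0S, hv0n.2.1⟩
  have hx1 : ExtP S e1 := hf.rot.ext_max hSP he1 he1b hmax1
  -- ga-max = minimum in the order at `c`
  obtain ⟨e2, he2, he2c, hmin2⟩ := hf.rot.rot.exists_min hSP ⟨v0, hv0S, hv0n.2.2⟩
  have hx2 : ExtP S e2 := hf.rot.rot.ext_min hSP he2 he2c hmin2
  have hxb : ExtP S b := hf.rot.ext_a hSP hbS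
  have hxc : ExtP S c := hf.rot.rot.ext_a hSP hcS
  -- e1 not in V
  have h1V : e1 ∉ V := by
    intro h
    have hT := hVT h
    have hbad := (Finset.mem_filter.1 h).2
    apply hbad
    left
    constructor
    · intro x hx hxb
      have hxe : x ≠ e1 := by
        rintro rfl; exact Finset.disjoint_left.1 hc.TB hT hx
      exact hmax1 x (by simp [hS, hx]) hxb hxe
    · refine le_trans hcard (Finset.card_le_card ?_)
      intro z hz
      rw [mem_Lo]
      refine ⟨hSP hz, ?_⟩
      by_cases hzb : z = b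
      · rw [hzb]; simp
      by_cases hze : z = e1
      · rw [hze]; simp
      exact (hmax1 z hz hzb hze).le
  have h2V : e2 ∉ V := by
    intro h
    have hT := hVT h
    have hbad := (Finset.mem_filter.1 h).2
    apply hbad
    right
    constructor
    · intro y hy hyc
      have hye : y ≠ e2 := by
        rintro rfl; exact Finset.disjoint_left.1 hc.TC hT hy
      have := hmin2 y (by simp [hS, hy]) hyc hye
      rw [D_swap'] at this; linarith
    · refine le_trans hcard (Finset.card_le_card ?_)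
      intro z hz
      rw [mem_Hi]
      refine ⟨hSP hz, ?_⟩
      by_cases hzc : z = c
      · rw [hzc]; simp
      by_cases hze : z = e2
      · rw [hze]; simp
      have := hmin2 z hz hzc hze
      rw [D_swap'] at this; linarith
  have h1B : e1 ∈ B := by
    rw [hS, Finset.mem_union, Finset.mem_union] at he1
    rcases he1 with h | h | h
    · exact absurd h h1V
    · exact h
    · exfalso
      have h1 := (hc.nearC e1 h v0 (hVT hv0)).2
      have hne : v0 ≠ e1 := by rintro rfl; exact h1V hv0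
      have := hmax1 v0 hv0S hv0n.2.1 hne
      linarith
  have h2C : e2 ∈ C := by
    rw [hS, Finset.mem_union, Finset.mem_union] at he2
    rcases he2 with h | h | h
    · exact absurd h h2V
    · exfalso
      have h1 := (hc.nearB e2 h v0 (hVT hv0)).1
      have hne : v0 ≠ e2 := by rintro rfl; exact h2V hv0
      have := hmin2 v0 hv0S hv0n.2.2 hne
      rw [D_swap'] at this
      linarith
    · exact h
  -- an extreme point in V
  obtain ⟨e, hxe, hge⟩ := exists_ext_ge (s := s) (p := p) (q := q) hv0S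
  have hv0ge : 0 ≤ D s p q v0 := by
    by_cases h1 : v0 = p
    · rw [h1]; simp
    by_cases h2 : v0 = q
    · rw [h2]; simp
    exact (he.left v0 (hVT hv0) h1 h2).le
  have heV : e ∈ V := by
    have heS := hxe.mem
    rw [hS, Finset.mem_union] at heS
    rcases heS with h | h
    · exact h
    · have := he.right e h
      linarith
  have h12 : e1 ≠ e2 := by
    rintro rfl; exact Finset.disjoint_left.1 hc.BC h1B h2C
  have hen := hc.neT (hVT heV)
  refine hc.set.thin.five hSP hcard hxb hxc hx1 hx2 hxe ?_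
  have hbc := hf.bc
  have h3 : e1 ≠ c := by rintro rfl; exact Finset.disjoint_left.1 hc.BC h1B hc.cC
  have h4 : e2 ≠ b := by rintro rfl; exact Finset.disjoint_left.1 hc.BC hc.bB h2C
  have h5 : e1 ≠ e := by rintro rfl; exact h1V heV
  have h6 : e2 ≠ e := by rintro rfl; exact h2V heV
  simp [hbc, he1b.symm, h4.symm, hen.2.1.symm, h3.symm, he2c.symm, hen.2.2.symm, h12, h5, h6]

/-- type `P1` -/
structure P1 (s : ℝ) (m : ℕ) (P A B C : Finset (ℝ × ℝ)) (a b c u : ℝ × ℝ) : Prop where
  zA : ∀ z ∈ A, z ≠ a → 0 < D s a z u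
  zB : ∀ z ∈ B, z ≠ b → 0 < D s b z u
  zC : ∀ z ∈ C, z ≠ c → 0 < D s c z u
  lA : m + 1 ≤ (Lo P s a u).card
  lB : m + 1 ≤ (Lo P s b u).card
  lC : m + 1 ≤ (Lo P s c u).card

lemma P1.rot (h : P1 s m P A B C a b c u) : P1 s m P B C A b c a u :=
  ⟨h.zB, h.zC, h.zA, h.lB, h.lC, h.lA⟩

lemma exists_other {X : Finset (ℝ × ℝ)} {a : ℝ × ℝ} (h : 2 ≤ X.card) : ∃ z ∈ X, z ≠ a := by
  by_contra hcon
  push Not at hcon
  have : X.card ≤ 1 := Finset.card_le_one.2 (fun x hx y hy => by rw [hcon x hx, hcon y hy])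
  omega

lemma p1_core (hc : Cls s m P T A B C a b c) (hA : 2 ≤ A.card) (hB : 2 ≤ B.card)
    (hu : u ∈ T) (hu' : u' ∈ T) (h1 : P1 s m P A B C a b c u) (h2 : P1 s m P A B C a b c u')
    (ha : 0 < D s a u' u) (hb : D s b u' u < 0) (hcc : 0 < D s c u' u) : False := by
  classical
  have hf := hc.set.conf
  have hg := hf.gen
  have hs := hf.hs
  have huP := hc.subT hu
  have hu'P := hc.subT hu'
  have hun := hc.neT hu
  have hu'n := hc.neT hu'
  have huu : u ≠ u' := (D_ne ha.ne').2.2.symm
  -- sides of the hull vertices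
  have sa : D s u u' a < 0 := by rw [D_cyc s a u u']; rw [D_swap'] at ha; linarith
  have sb : 0 < D s u u' b := by rw [D_cyc s b u u']; rw [D_swap'] at hb; linarith
  have sc : D s u u' c < 0 := by rw [D_cyc s c u u']; rw [D_swap'] at hcc; linarith
  have hBleft : ∀ x ∈ B, 0 < D s u u' x := by
    intro x hx
    have hn := hc.nearB x hx u hu
    refine opp (a := a) (c := c) ?_ ?_ ?_ sa sc
    · have := hf.eca u huP hun.2.2 hun.1
      rw [D_cyc' s c a u] ; exact this
    · rw [D_cyc s c u x] ; exact hn.1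
    · rw [D_cyc s a u x] ; exact hn.2
  set Q := sR P s u u' with hQ
  set L := sL P s u u' with hL
  have hcard : L.card + Q.card = P.card + 2 := card_sLR hg hs huP hu'P huu
  have hPc := hc.set.card
  have hQu : ExtP Q u := sR_extp hg hs huP hu'P huu
  have hQu' : ExtP Q u' := sR_extq hg hs huP hu'P huu
  have hLu : ExtP L u := sL_extp hg hs huP hu'P huu
  have hLu' : ExtP L u' := sL_extq hg hs huP hu'P huu
  have hQa : ExtP Q a := hf.ext_a sR_sub (mem_sR.2 ⟨hf.ha, sa.le⟩)
  have hQc : ExtP Q c := hf.rot.rot.ext_a sR_sub (mem_sR.2 ⟨hf.hc, sc.le⟩)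
  have hLb : ExtP L b := hf.rot.ext_a sL_sub (mem_sL.2 ⟨hf.hb, sb.le⟩)
  have huQ : u ∈ Q := hQu.mem
  have hu'Q : u' ∈ Q := hQu'.mem
  have huL : u ∈ L := hLu.mem
  have hu'L : u' ∈ L := hLu'.mem
  have hba : 0 < D s b u u' := by rw [D_swap'] at hb; linarith
  -- be-min of L
  obtain ⟨x0, hx0, hx0b⟩ := exists_other (a := b) hB
  have hx0L : x0 ∈ L := mem_sL.2 ⟨hc.subB hx0, (hBleft x0 hx0).le⟩
  obtain ⟨e2, he2, he2b, hmin2⟩ := hf.rot.exists_min (S := L) sL_sub ⟨u, huL, hun.2.1⟩
  have hx2 : ExtP L e2 := hf.rot.ext_min sL_sub he2 he2b hmin2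
  have he2u : e2 ≠ u := by
    rintro rfl
    have h3 := h1.zB x0 hx0 hx0b
    have hne : x0 ≠ e2 := by rintro rfl; simp at h3
    have := hmin2 x0 hx0L hx0b hne
    rw [D_swap'] at this; linarith
  have he2u' : e2 ≠ u' := by
    rintro rfl
    have := hmin2 u huL hun.2.1 huu
    rw [D_swap'] at this; linarith
  -- be-max of L
  obtain ⟨e1, he1, he1b, hmax1⟩ := hf.rot.exists_max (S := L) sL_sub ⟨u, huL, hun.2.1⟩
  have hx1 : ExtP L e1 := hf.rot.ext_max sL_sub he1 he1b hmax1
  have he1u : e1 ≠ u := by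
    rintro rfl
    have := hmax1 u' hu'L hu'n.2.1 huu.symm
    rw [D_swap'] at this; linarith
  have he12 : e1 ≠ e2 := by
    rintro rfl
    have h3 := hmin2 u huL hun.2.1 he1u.symm
    have h4 := hmax1 u huL hun.2.1 he1u.symm
    rw [D_swap'] at h4; linarith
  by_cases hQc' : m + 1 ≤ Q.card
  · -- al-min of Q is u'
    obtain ⟨e, he, hea, hmin⟩ := hf.exists_min (S := Q) sR_sub ⟨u, huQ, hun.1⟩
    have hxe : ExtP Q e := hf.ext_min sR_sub he hea hmin
    have hee : e = u' := by
      rcases four_only hc.set.thin sR_sub hQc' hQa hQc hQu hQu' (by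
        simp [hf.ca.symm, hun.1.symm, hu'n.1.symm, hun.2.2.symm, hu'n.2.2.symm, huu]) hxe
        with h | h | h | h
      · exact absurd h hea
      · exfalso
        have := hmin u huQ hun.1 (by rw [h]; exact hun.2.2)
        rw [h] at this
        exact hf.not_gt_c huP this
      · exfalso
        have := hmin u' hu'Q hu'n.1 (by rw [h]; exact huu.symm)
        rw [h, D_swap'] at this; linarith
      · exact h
    subst hee
    have hnotQ : ∀ z ∈ P, 0 < D s a z e → 0 < D s u e z := by
      intro z hz h3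
      by_contra hcon
      have hzQ : z ∈ Q := mem_sR.2 ⟨hz, not_lt.1 hcon⟩
      have hze : z ≠ e := by rintro rfl; simp at h3
      have hza : z ≠ a := by rintro rfl; simp at h3
      have := hmin z hzQ hza hze
      rw [D_swap'] at this; linarith
    obtain ⟨z0, hz0, hz0a⟩ := exists_other (a := a) hA
    have hz0L : z0 ∈ L := mem_sL.2 ⟨hc.subA hz0,
      (hnotQ z0 (hc.subA hz0) (h2.zA z0 hz0 hz0a)).le⟩
    have he1u' : e1 ≠ e := by
      rintro rfl
      have h3 := (hc.nearA z0 hz0 e1 hu').1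
      have hz0b : z0 ≠ b := by rintro rfl; exact Finset.disjoint_left.1 hc.AB hz0 hc.bB
      have hne : z0 ≠ e1 := by rintro rfl; simp at h3
      have := hmax1 z0 hz0L hz0b hne
      rw [D_swap'] at this; linarith
    have hLle : L.card ≤ m := light_of_five hc.set.thin sL_sub hLb hLu hLu' hx1 hx2 (by
      simp [hun.2.1.symm, hu'n.2.1.symm, huu, he1b.symm, he2b.symm, he1u.symm, he1u'.symm,
        he2u.symm, he2u'.symm, he12])
    have hsub : insert u ((Lo P s a e).erase a) ⊆ L := by
      intro z hz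
      rw [Finset.mem_insert, Finset.mem_erase] at hz
      rcases hz with rfl | ⟨hza, hz⟩
      · exact huL
      · rw [mem_Lo] at hz
        by_cases hze : z = e
        · rw [hze]; exact hu'L
        · have h3 : 0 < D s a z e := lt_of_le_of_ne hz.2
            (hg.D_ne hs hf.ha hz.1 hu'P hza.symm hu'n.1.symm hze).symm
          exact mem_sL.2 ⟨hz.1, (hnotQ z hz.1 h3).le⟩
    have h3 := Finset.card_le_card hsub
    have hunot : u ∉ (Lo P s a e).erase a := by
      rw [Finset.mem_erase, mem_Lo]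
      rintro ⟨_, _, h4⟩
      rw [D_swap'] at h4; linarith
    have haLo : a ∈ Lo P s a e := mem_Lo.2 ⟨hf.ha, by simp⟩
    rw [Finset.card_insert_of_notMem hunot, Finset.card_erase_of_mem haLo] at h3
    have := h2.lA
    omega
  · have hLc : m + 1 ≤ L.card := by omega
    have hee : e1 = u' := by
      rcases four_only hc.set.thin sL_sub hLc hLb hLu hLu' hx2 (by
        simp [hun.2.1.symm, hu'n.2.1.symm, huu, he2b.symm, he2u.symm, he2u'.symm]) hx1
        with h | h | h | h
      · exact absurd h he1b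
      · exact absurd h he1u
      · exact h
      · exact absurd h he12
    subst hee
    have hQ2 : ∀ z ∈ P, 0 < D s c z e1 → D s u e1 z < 0 := by
      intro z hz h3
      by_contra hcon
      have hzL : z ∈ L := mem_sL.2 ⟨hz, not_lt.1 hcon⟩
      have hze : z ≠ e1 := by rintro rfl; simp at h3
      have hzu : z ≠ u := by rintro rfl; rw [D_swap'] at h3; linarith
      have hpos : 0 < D s u e1 z := lt_of_le_of_ne (not_lt.1 hcon)
        (hg.D_ne hs huP hu'P hz huu hzu.symm hze.symm).symm
      have hzb : z ≠ b := by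
        rintro rfl
        have := hf.ebc e1 hu'P hu'n.2.1 hu'n.2.2
        rw [D_swap] at this; linarith
      have h4 := hmax1 z hzL hzb hze
      have h5 : 0 < D s e1 u z := by
        refine around (b := b) (y := c) ?_ ?_ ?_ ?_ ?_
        · rw [D_cyc s u e1 b]; exact sb
        · rw [D_cyc' s b c e1]; exact hf.ebc e1 hu'P hu'n.2.1 hu'n.2.2
        · rw [D_cyc' s b z e1]; exact h4
        · have := sc; rw [D_swap]; linarith
        · rw [D_cyc' s c z e1]; exact h3
      rw [D_swap] at h5; linarith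
    have hsub : insert u (Lo P s c e1) ⊆ Q := by
      intro z hz
      rw [Finset.mem_insert] at hz
      rcases hz with rfl | hz
      · exact huQ
      · rw [mem_Lo] at hz
        by_cases hze : z = e1
        · rw [hze]; exact hu'Q
        by_cases hzc : z = c
        · rw [hzc]; exact hQc.mem
        · have h3 : 0 < D s c z e1 := lt_of_le_of_ne hz.2
            (hg.D_ne hs hf.hc hz.1 hu'P (Ne.symm hzc) hu'n.2.2.symm hze).symm
          exact mem_sR.2 ⟨hz.1, (hQ2 z hz.1 h3).le⟩
    have h3 := Finset.card_le_card hsub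
    have hunot : u ∉ Lo P s c e1 := by
      rw [mem_Lo]
      rintro ⟨_, h4⟩
      rw [D_swap'] at h4; linarith
    rw [Finset.card_insert_of_notMem hunot] at h3
    have := h2.lC
    omega

lemma p1_pair (hc : Cls s m P T A B C a b c) (hA : 2 ≤ A.card) (hB : 2 ≤ B.card)
    (hC : 2 ≤ C.card) (hu : u ∈ T) (hu' : u' ∈ T) (huu : u ≠ u')
    (h1 : P1 s m P A B C a b c u) (h2 : P1 s m P A B C a b c u') : False := by
  have hf := hc.set.conf
  have hg := hf.gen
  have hs := hf.hs
  have huP := hc.subT hu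
  have hu'P := hc.subT hu'
  have hun := hc.neT hu
  have hu'n := hc.neT hu'
  have sw : ∀ h : ℝ × ℝ, D s h u u' = - D s h u' u := fun h => D_swap' s h u' u
  rcases pos_or_neg hg hs hf.ha hu'P huP hu'n.1.symm hun.1.symm huu.symm with pa | pa <;>
  rcases pos_or_neg hg hs hf.hb hu'P huP hu'n.2.1.symm hun.2.1.symm huu.symm with pb | pb <;>
  rcases pos_or_neg hg hs hf.hc hu'P huP hu'n.2.2.symm hun.2.2.symm huu.symm with pc | pc
  · exact hf.ceva_pos hu'P hu'n.1 hu'n.2.1 hu'n.2.2 pa pb pc
  · exact p1_core hc.rot hB hC hu hu' h1.rot h2.rot pb pc pa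
  · exact p1_core hc hA hB hu hu' h1 h2 pa pb pc
  · exact p1_core hc.rot.rot hC hA hu' hu h2.rot.rot h1.rot.rot (by rw [sw]; linarith)
      (by rw [sw]; linarith) (by rw [sw]; linarith)
  · exact p1_core hc.rot.rot hC hA hu hu' h1.rot.rot h2.rot.rot pc pa pb
  · exact p1_core hc hA hB hu' hu h2 h1 (by rw [sw]; linarith)
      (by rw [sw]; linarith) (by rw [sw]; linarith)
  · exact p1_core hc.rot hB hC hu' hu h2.rot h1.rot (by rw [sw]; linarith)
      (by rw [sw]; linarith) (by rw [sw]; linarith)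
  · exact hf.ceva_neg hu'P hu'n.1 hu'n.2.1 hu'n.2.2 pa pb pc

lemma p12_false (hc : Cls s m P T A B C a b c) (hA : 2 ≤ A.card) (hB : 2 ≤ B.card)
    (hC : 2 ≤ C.card) (hu : u ∈ T) (hu' : u' ∈ T)
    (h1 : P1 s m P A B C a b c u) (h2 : P1 (-s) m P A C B a c b u') : False := by
  have hf := hc.set.conf
  have huP := hc.subT hu
  have hu'P := hc.subT hu'
  have hu'n := hc.neT hu'
  obtain ⟨z, hz, hza⟩ := exists_other (a := a) hA
  obtain ⟨x, hx, hxb⟩ := exists_other (a := b) hB
  obtain ⟨y, hy, hyc⟩ := exists_other (a := c) hC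
  have a1 := h1.zA z hz hza
  have a2 := h2.zA z hz hza
  have b1 := h1.zB x hx hxb
  have b2 := h2.zC x hx hxb
  have c1 := h1.zC y hy hyc
  have c2 := h2.zB y hy hyc
  rw [D_neg] at a2 b2 c2
  refine hf.ceva_pos hu'P hu'n.1 hu'n.2.1 hu'n.2.2 (q := u) ?_ ?_ ?_
  · exact hf.tr hu'P (hc.subA hz) huP (by rw [D_swap']; linarith) a1
  · exact hf.rot.tr hu'P (hc.subB hx) huP (by rw [D_swap']; linarith) b1
  · exact hf.rot.rot.tr hu'P (hc.subC hy) huP (by rw [D_swap']; linarith) c1

/-- MODULE W -/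
theorem w_false (hc : Cls s m P T A B C a b c) (hA : 2 ≤ A.card) (hB : 2 ≤ B.card)
    (hC : 2 ≤ C.card) (ea : ∃ p q, EdgeR s T (B ∪ C) p q) (eb : ∃ p q, EdgeR s T (C ∪ A) p q)
    (ec : ∃ p q, EdgeR s T (A ∪ B) p q) : False := by
  classical
  obtain ⟨p1, q1, e1⟩ := ea
  obtain ⟨p2, q2, e2⟩ := eb
  obtain ⟨p3, q3, e3⟩ := ec
  have b1 := bad_card hc e1
  have b2 := bad_card hc.rot e2
  have b3 := bad_card hc.rot.rot e3
  have hABC := hc.card_ABC
  set V1 := T.filter (fun u => ¬ GoodA s m P B C b c u) with hV1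
  set V2 := T.filter (fun u => ¬ GoodA s m P C A c a u) with hV2
  set V3 := T.filter (fun u => ¬ GoodA s m P A B a b u) with hV3
  set G := T.filter (fun u => GoodA s m P B C b c u ∧ GoodA s m P C A c a u ∧
    GoodA s m P A B a b u) with hG
  have hcov : T ⊆ G ∪ (V1 ∪ (V2 ∪ V3)) := by
    intro u hu
    simp only [hG, hV1, hV2, hV3, Finset.mem_union, Finset.mem_filter]
    tauto
  have hcard : 2 ≤ G.card := by
    have h1 := Finset.card_le_card hcov
    have h2 := Finset.card_union_le G (V1 ∪ (V2 ∪ V3))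
    have h3 := Finset.card_union_le V1 (V2 ∪ V3)
    have h4 := Finset.card_union_le V2 V3
    have h5 := hc.cardT
    omega
  have htype : ∀ u ∈ G, P1 s m P A B C a b c u ∨ P1 (-s) m P A C B a c b u := by
    intro u hu
    obtain ⟨huT, g1, g2, g3⟩ := Finset.mem_filter.1 hu
    obtain ⟨z, hz, hza⟩ := exists_other (a := a) hA
    obtain ⟨x, hx, hxb⟩ := exists_other (a := b) hB
    obtain ⟨y, hy, hyc⟩ := exists_other (a := c) hC
    rcases g1 with ⟨zb, lb⟩ | ⟨zc, lc⟩
    · rcases g3 with ⟨za, la⟩ | ⟨zb', lb'⟩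
      · rcases g2 with ⟨zc, lc⟩ | ⟨za', la'⟩
        · left
          exact ⟨za, zb, zc, la, lb, lc⟩
        · exfalso
          have := za z hz hza
          have := za' z hz hza
          linarith
      · exfalso
        have := zb x hx hxb
        have := zb' x hx hxb
        linarith
    · rcases g2 with ⟨zc', lc'⟩ | ⟨za, la⟩
      · exfalso
        have := zc y hy hyc
        have := zc' y hy hyc
        linarith
      · rcases g3 with ⟨za', la'⟩ | ⟨zb, lb⟩
        · exfalso
          have := za z hz hza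
          have := za' z hz hza
          linarith
        · right
          rw [Hi_eq] at la lb lc
          exact ⟨fun z hz h => by rw [D_neg]; have := za z hz h; linarith,
            fun z hz h => by rw [D_neg]; have := zc z hz h; linarith,
            fun z hz h => by rw [D_neg]; have := zb z hz h; linarith, la, lc, lb⟩
  obtain ⟨u, hu, u', hu', huu⟩ := Finset.one_lt_card.1 hcard
  have huT := (Finset.mem_filter.1 hu).1
  have hu'T := (Finset.mem_filter.1 hu').1
  rcases htype u hu with h1 | h1 <;> rcases htype u' hu' with h2 | h2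
  · exact p1_pair hc hA hB hC huT hu'T huu h1 h2
  · exact p12_false hc hA hB hC huT hu'T h1 h2
  · exact p12_false hc hA hB hC hu'T huT h2 h1
  · exact p1_pair hc.refl hA hC hB huT hu'T huu h1 h2

end w

end Pool.Agent.G5.Tri
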